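import Pool.Agent.SpiralKnots.SpiralTheta

/-!
# Burau colourings and torus knots
-/

open Finset

namespace Pool.Agent.SpiralKnots

/-- colour vectors -/
abbrev CV : Type := ℕ → ℂ

/-- the Burau operator -/
noncomputable def bur (t : ℂ) (ht : t ≠ 0) (i : ℕ) : CV ≃ₗ[ℂ] CV where
  toFun x := fun k => if k = i then (1 - t) * x i + t * x (i + 1) else if k = i + 1 then x i else x k
  invFun x := fun k => if k = i then x (i + 1) else if k = i + 1 then
    t⁻¹ * (x i - (1 - t) * x (i + 1)) else x k
  map_add' x y := by
    funext k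
    simp only [Pi.add_apply]
    split_ifs <;> ring
  map_smul' c x := by
    funext k
    simp only [Pi.smul_apply, smul_eq_mul, RingHom.id_apply]
    split_ifs <;> ring
  left_inv x := by
    funext k
    by_cases h1 : k = i
    · subst h1; simp
    · by_cases h2 : k = i + 1
      · subst h2
        simp
        field_simp
      · simp [h1, h2]
  right_inv x := by
    funext k
    by_cases h1 : k = i
    · subst h1
      simp
      field_simp
      ring
    · by_cases h2 : k = i + 1
      · subst h2; simp
      · simp [h1, h2]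

variable (t : ℂ) (ht : t ≠ 0)

lemma bur_apply (i : ℕ) (x : CV) (k : ℕ) : bur t ht i x k =
    if k = i then (1 - t) * x i + t * x (i + 1) else if k = i + 1 then x i else x k := rfl

lemma bur_self (i : ℕ) (x : CV) : bur t ht i x i = (1 - t) * x i + t * x (i + 1) := by
  simp [bur_apply]

lemma bur_succ (i : ℕ) (x : CV) : bur t ht i x (i + 1) = x i := by
  simp [bur_apply]

lemma bur_ne (i : ℕ) (x : CV) {k : ℕ} (h1 : k ≠ i) (h2 : k ≠ i + 1) : bur t ht i x k = x k := by
  simp [bur_apply, h1, h2]

lemma bur_fix (i : ℕ) (x : CV) (h : x i = x (i + 1)) : bur t ht i x = x := by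
  funext k
  rw [bur_apply]
  split_ifs with h1 h2
  · rw [h1, ← h]; ring
  · rw [h2, h]
  · rfl

lemma bur_braid (i : ℕ) :
    bur t ht i * bur t ht (i + 1) * bur t ht i
      = bur t ht (i + 1) * bur t ht i * bur t ht (i + 1) := by
  apply LinearEquiv.ext
  intro x
  simp only [LinearEquiv.mul_apply]
  funext k
  by_cases h1 : k = i
  · subst h1
    rw [bur_self, bur_ne t ht (k + 1) _ (by omega) (by omega), bur_self, bur_self,
      bur_ne t ht (k + 1) _ (by omega) (by omega), bur_self,
      bur_ne t ht (k + 1) _ (by omega) (by omega), bur_self, bur_succ,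
      bur_ne t ht k _ (by omega) (by omega)]
    ring
  · by_cases h2 : k = i + 1
    · subst h2
      rw [bur_succ, bur_ne t ht (i + 1) _ (by omega) (by omega), bur_self, bur_self, bur_succ,
        bur_ne t ht i _ (by omega) (by omega), bur_ne t ht (i + 1) _ (by omega) (by omega),
        bur_succ]
    · by_cases h3 : k = i + 2
      · subst h3
        rw [bur_ne t ht i _ (by omega) (by omega)]
        have e : i + 2 = i + 1 + 1 := rfl
        rw [e, bur_succ, bur_succ, bur_succ, bur_succ, bur_ne t ht (i + 1) _ (by omega) (by omega)]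
      · rw [bur_ne t ht i _ h1 h2, bur_ne t ht (i + 1) _ h2 (by omega),
          bur_ne t ht i _ h1 h2, bur_ne t ht (i + 1) _ h2 (by omega), bur_ne t ht i _ h1 h2,
          bur_ne t ht (i + 1) _ h2 (by omega)]

lemma bur_far (i j : ℕ) (hij : i + 1 < j) : bur t ht i * bur t ht j = bur t ht j * bur t ht i := by
  apply LinearEquiv.ext
  intro x
  simp only [LinearEquiv.mul_apply]
  funext k
  by_cases h1 : k = i
  · subst h1
    rw [bur_self, bur_ne t ht j _ (by omega) (by omega), bur_ne t ht j _ (by omega) (by omega),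
      bur_ne t ht j _ (by omega) (by omega), bur_self]
  · by_cases h2 : k = i + 1
    · subst h2
      rw [bur_succ, bur_ne t ht j _ (by omega) (by omega), bur_ne t ht j _ (by omega) (by omega),
        bur_succ]
    · rw [bur_ne t ht i _ h1 h2]
      by_cases h3 : k = j
      · subst h3
        rw [bur_self, bur_self, bur_ne t ht i _ (by omega) (by omega),
          bur_ne t ht i _ (by omega) (by omega)]
      · by_cases h4 : k = j + 1
        · subst h4
          rw [bur_succ, bur_succ, bur_ne t ht i _ (by omega) (by omega)]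
        · rw [bur_ne t ht j _ h3 h4, bur_ne t ht j _ h3 h4, bur_ne t ht i _ h1 h2]

/-- the Burau representation on colour vectors -/
noncomputable def brep (m : ℕ) : Braid m →* (CV ≃ₗ[ℂ] CV) :=
  braidLift (fun i => bur t ht i)
    (fun i j h => by rw [← h]; exact bur_braid t ht i)
    (fun i j h => bur_far t ht i j h)

lemma brep_sg {m : ℕ} (i : Fin m) : brep t ht m (sg i) = bur t ht i := braidLift_sg _ _ _ _

lemma brep_incl (m : ℕ) (x : Braid m) : brep t ht (m + 1) (incl m x) = brep t ht m x := by
  have h : (brep t ht (m + 1)).comp (incl m) = brep t ht m := by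
    apply hom_ext
    intro i
    simp only [MonoidHom.comp_apply, incl, braidLift_sg, brep, Fin.val_castSucc]
  exact congrArg (fun f => f x) h

lemma fix_inv {f : CV ≃ₗ[ℂ] CV} {x : CV} (h : f x = x) : f⁻¹ x = x := by
  have : f.symm (f x) = f.symm x := by rw [h]
  rw [LinearEquiv.symm_apply_apply] at this
  exact this.symm

lemma brep_fixc (m : ℕ) (b : Braid m) : ∀ x : CV, (∀ k ≤ m, x k = x 0) → brep t ht m b x = x := by
  induction b using braid_induction with
  | h1 => intro x _; simp
  | hmul a b ha hb =>
    intro x hx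
    rw [map_mul, LinearEquiv.mul_apply, hb x hx, ha x hx]
  | hinv a ha =>
    intro x hx
    rw [map_inv]
    exact fix_inv (ha x hx)
  | hg i =>
    intro x hx
    rw [brep_sg]
    exact bur_fix t ht i x (by rw [hx i (by omega), hx (i + 1) (by omega)])

lemma brep_far (m : ℕ) (b : Braid m) : ∀ (x : CV) (k : ℕ), m < k → brep t ht m b x k = x k := by
  induction b using braid_induction with
  | h1 => intro x k _; simp
  | hmul a b ha hb =>
    intro x k hk
    rw [map_mul, LinearEquiv.mul_apply, ha _ k hk, hb x k hk]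
  | hinv a ha =>
    intro x k hk
    rw [map_inv]
    have h1 := ha ((brep t ht m a)⁻¹ x) k hk
    rw [← h1]
    have : brep t ht m a ((brep t ht m a)⁻¹ x) = x := by
      rw [← LinearEquiv.mul_apply, mul_inv_cancel]; rfl
    rw [this]
  | hg i =>
    intro x k hk
    rw [brep_sg]
    exact bur_ne t ht i x (by omega) (by omega)

/-- nonconstant `t`-colourings of the closure -/
def Col (y : AnyBraid) : Prop :=
  ∃ x : CV, brep t ht y.1 y.2 x = x ∧ ∃ k ≤ y.1, x k ≠ x 0

lemma col_conj {m : ℕ} (a b : Braid m) (h : Col t ht ⟨m, b⟩) : Col t ht ⟨m, a * b * a⁻¹⟩ := by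
  obtain ⟨x, hx, k, hk, hne⟩ := h
  refine ⟨brep t ht m a x, ?_, ?_⟩
  · have : (a * b * a⁻¹) * a = a * b := by group
    rw [← LinearEquiv.mul_apply, ← map_mul, this, map_mul, LinearEquiv.mul_apply]
    exact congrArg _ hx
  · by_contra hc
    push Not at hc
    have h1 := brep_fixc t ht m a⁻¹ _ hc
    rw [← LinearEquiv.mul_apply, ← map_mul, inv_mul_cancel, map_one] at h1
    have h2 : x = brep t ht m a x := h1
    apply hne
    rw [h2]
    exact hc k hk

lemma fix_stab {m : ℕ} (x : CV) (h : x (m + 1) = x m) : bur t ht m x = x :=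
  bur_fix t ht m x h.symm

lemma col_stab_iff {m : ℕ} (b : Braid m) (s : CV ≃ₗ[ℂ] CV)
    (hs : s = bur t ht m ∨ s = (bur t ht m)⁻¹) :
    (∃ x : CV, (brep t ht m b * s) x = x ∧ ∃ k ≤ m + 1, x k ≠ x 0) ↔ Col t ht ⟨m, b⟩ := by
  constructor
  · rintro ⟨x, hx, k, hk, hne⟩
    rw [LinearEquiv.mul_apply] at hx
    have h1 : s x (m + 1) = x (m + 1) := by
      rw [← brep_far t ht m b (s x) (m + 1) (by omega), hx]
    have h2 : x (m + 1) = x m := by
      rcases hs with rfl | rfl
      · rw [bur_succ] at h1; exact h1.symm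
      · have h3 : (bur t ht m)⁻¹ x (m + 1) = t⁻¹ * (x m - (1 - t) * x (m + 1)) := by
          show (if m + 1 = m then x (m + 1) else if m + 1 = m + 1 then
            t⁻¹ * (x m - (1 - t) * x (m + 1)) else x (m + 1)) = _
          rw [if_neg (by omega), if_pos rfl]
        rw [h3] at h1
        have h4 : x m - (1 - t) * x (m + 1) = t * x (m + 1) := by
          have := congrArg (fun y => t * y) h1
          simpa [mul_inv_cancel_left₀ ht] using this
        linear_combination -h4
    have h3 : s x = x := by
      rcases hs with rfl | rfl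
      · exact fix_stab t ht x h2
      · exact fix_inv (fix_stab t ht x h2)
    rw [h3] at hx
    refine ⟨x, hx, ?_⟩
    by_cases hkm : k = m + 1
    · refine ⟨m, le_rfl, ?_⟩
      rw [hkm, h2] at hne
      exact hne
    · exact ⟨k, (show k ≤ m by omega), hne⟩
  · rintro ⟨x, hx, k, hk, hne⟩
    have hk' : k ≤ m := hk
    have hx' : brep t ht m b x = x := hx
    -- correct the coordinate `m + 1`
    set d : CV := fun j => if j = m + 1 then x m - x (m + 1) else 0 with hd
    have hdf : brep t ht m b d = d := by
      apply brep_fixc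
      intro j hj
      simp only [hd]
      rw [if_neg (by omega), if_neg (by omega)]
    have h2 : (x + d) (m + 1) = (x + d) m := by
      simp [hd]
    have h3 : s (x + d) = x + d := by
      rcases hs with rfl | rfl
      · exact fix_stab t ht _ h2
      · exact fix_inv (fix_stab t ht _ h2)
    refine ⟨x + d, ?_, k, by omega, ?_⟩
    · rw [LinearEquiv.mul_apply, h3, map_add, hdf, hx']
    · simp only [Pi.add_apply, hd]
      rw [if_neg (by omega), if_neg (by omega), add_zero, add_zero]
      exact hne

lemma col_move {x y : AnyBraid} (h : MarkovMove x y) : Col t ht x ↔ Col t ht y := by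
  cases h with
  | conj m a b =>
    constructor
    · exact col_conj t ht a b
    · intro h
      have := col_conj t ht a⁻¹ _ h
      have e : a⁻¹ * (a * b * a⁻¹) * a⁻¹⁻¹ = b := by group
      rw [e] at this
      exact this
  | stabPos m b =>
    have := col_stab_iff t ht b (bur t ht m) (Or.inl rfl)
    rw [← this]
    unfold Col
    simp only [map_mul, brep_incl, brep_sg, Fin.val_last]
  | stabNeg m b =>
    have := col_stab_iff t ht b (bur t ht m)⁻¹ (Or.inr rfl)
    rw [← this]
    unfold Col
    simp only [map_mul, map_inv, brep_incl, brep_sg, Fin.val_last]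

lemma col_same {x y : AnyBraid} (h : SameClosure x y) : Col t ht x ↔ Col t ht y := by
  induction h with
  | rel x y h => exact col_move t ht h
  | refl x => rfl
  | symm x y _ ih => exact ih.symm
  | trans x y z _ _ ih1 ih2 => exact ih1.trans ih2

lemma col_inv {m : ℕ} (b : Braid m) : Col t ht ⟨m, b⁻¹⟩ ↔ Col t ht ⟨m, b⟩ := by
  constructor
  · rintro ⟨x, hx, hk⟩
    refine ⟨x, ?_, hk⟩
    have := fix_inv hx
    rw [map_inv, inv_inv] at this
    exact this
  · rintro ⟨x, hx, hk⟩
    refine ⟨x, ?_, hk⟩
    have := fix_inv hx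
    rw [← map_inv] at this
    exact this

/-! ### The two Coxeter type operators -/

/-- `σ_0 ⋯ σ_{m-1}` -/
noncomputable def mf : ℕ → (CV ≃ₗ[ℂ] CV)
  | 0 => 1
  | m + 1 => mf m * bur t ht m

/-- `σ_{m-1} ⋯ σ_0` -/
noncomputable def mr : ℕ → (CV ≃ₗ[ℂ] CV)
  | 0 => 1
  | m + 1 => bur t ht m * mr m

lemma mf_eq (m : ℕ) : mf t ht m = ((List.range m).map (fun i => bur t ht i)).prod := by
  induction m with
  | zero => simp [mf]
  | succ m ih => rw [mf, ih, List.range_succ, List.map_append, List.prod_append]; simp

lemma mr_eq (m : ℕ) : mr t ht m = ((List.range m).reverse.map (fun i => bur t ht i)).prod := by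
  induction m with
  | zero => simp [mr]
  | succ m ih =>
    rw [mr, ih, List.range_succ, List.reverse_append, List.map_append, List.prod_append]; simp

lemma mf_far (m : ℕ) (x : CV) (k : ℕ) (hk : m < k) : mf t ht m x k = x k := by
  induction m generalizing x with
  | zero => simp [mf]
  | succ m ih =>
    rw [mf, LinearEquiv.mul_apply, ih _ (by omega), bur_ne t ht m x (by omega) (by omega)]

lemma mf_succ (m : ℕ) (x : CV) (k : ℕ) (hk : k < m) : mf t ht m x (k + 1) = x k := by
  induction m generalizing x with
  | zero => omega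
  | succ m ih =>
    rw [mf, LinearEquiv.mul_apply]
    by_cases h : k < m
    · rw [ih _ h, bur_ne t ht m x (by omega) (by omega)]
    · have : k = m := by omega
      subst this
      rw [mf_far t ht k _ _ (by omega), bur_succ]

lemma mf_zero (m : ℕ) (x : CV) :
    mf t ht m x 0 = (1 - t) * ∑ k ∈ range m, t ^ k * x k + t ^ m * x m := by
  induction m generalizing x with
  | zero => simp [mf]
  | succ m ih =>
    rw [mf, LinearEquiv.mul_apply, ih, bur_self, Finset.sum_range_succ]
    have : ∑ k ∈ range m, t ^ k * bur t ht m x k = ∑ k ∈ range m, t ^ k * x k := by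
      apply Finset.sum_congr rfl
      intro k hk
      have := Finset.mem_range.mp hk
      rw [bur_ne t ht m x (by omega) (by omega)]
    rw [this]
    ring

lemma mr_far (m : ℕ) (x : CV) (k : ℕ) (hk : m < k) : mr t ht m x k = x k := by
  induction m with
  | zero => simp [mr]
  | succ m ih =>
    rw [mr, LinearEquiv.mul_apply, bur_ne t ht m _ (by omega) (by omega), ih (by omega)]

lemma mr_last (m : ℕ) (x : CV) : mr t ht m x m = x 0 := by
  induction m with
  | zero => simp [mr]
  | succ m ih => rw [mr, LinearEquiv.mul_apply, bur_succ, ih]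

lemma mr_lt (m : ℕ) (x : CV) (k : ℕ) (hk : k < m) :
    mr t ht m x k = (1 - t) * x 0 + t * x (k + 1) := by
  induction m with
  | zero => omega
  | succ m ih =>
    rw [mr, LinearEquiv.mul_apply]
    by_cases h : k < m
    · rw [bur_ne t ht m _ (by omega) (by omega), ih h]
    · have : k = m := by omega
      subst this
      rw [bur_self, mr_last, mr_far t ht k x (k + 1) (by omega)]

/-! ### Necessary condition for a colouring -/

/-- abstract periodicity argument, forward shift -/
lemma period_fwd {V : Type*} (M : V → V) (D : V → ℕ → ℂ) (p : ℕ)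
    (hper : ∀ x n, D x (n + p) = D x n) (hM : ∀ x n, D (M x) (n + 1) = t * D x n) (x : V)
    (q : ℕ) (hx : M^[q] x = x) (n : ℕ) (hn : D x n ≠ 0) : t ^ (p * q) = 1 := by
  have h1 : ∀ j x n, D (M^[j] x) (n + j) = t ^ j * D x n := by
    intro j
    induction j with
    | zero => intro x n; simp
    | succ j ih =>
      intro x n
      rw [Function.iterate_succ_apply', ← add_assoc, hM, ih]; ring
  have h2 : ∀ j, M^[j * q] x = x := by
    intro j
    rw [mul_comm, Function.iterate_mul]
    exact Function.iterate_fixed hx j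
  have h3 : ∀ j x n, D x (n + j * p) = D x n := by
    intro j
    induction j with
    | zero => intro x n; simp
    | succ j ih => intro x n; rw [add_mul, one_mul, ← add_assoc, hper, ih]
  have h4 := h1 (p * q) x n
  rw [h2 p] at h4
  have h5 := h3 q x n
  rw [mul_comm q p] at h5
  rw [h5] at h4
  have h6 : (t ^ (p * q) - 1) * D x n = 0 := by linear_combination -h4
  rcases mul_eq_zero.mp h6 with h | h
  · exact sub_eq_zero.mp h
  · exact absurd h hn

/-- abstract periodicity argument, backward shift -/
lemma period_bwd {V : Type*} (M : V → V) (D : V → ℕ → ℂ) (p : ℕ)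
    (hper : ∀ x n, D x (n + p) = D x n) (hM : ∀ x n, D (M x) n = t * D x (n + 1)) (x : V)
    (q : ℕ) (hx : M^[q] x = x) (n : ℕ) (hn : D x n ≠ 0) : t ^ (p * q) = 1 := by
  have h1 : ∀ j x n, D (M^[j] x) n = t ^ j * D x (n + j) := by
    intro j
    induction j with
    | zero => intro x n; simp
    | succ j ih =>
      intro x n
      rw [Function.iterate_succ_apply', hM, ih]
      have : n + 1 + j = n + (j + 1) := by ring
      rw [this]; ring
  have h2 : ∀ j, M^[j * q] x = x := by
    intro j
    rw [mul_comm, Function.iterate_mul]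
    exact Function.iterate_fixed hx j
  have h3 : ∀ j x n, D x (n + j * p) = D x n := by
    intro j
    induction j with
    | zero => intro x n; simp
    | succ j ih => intro x n; rw [add_mul, one_mul, ← add_assoc, hper, ih]
  have h4 := h1 (p * q) x n
  rw [h2 p] at h4
  have h5 := h3 q x n
  rw [mul_comm q p] at h5
  rw [h5] at h4
  have h6 : (t ^ (p * q) - 1) * D x n = 0 := by linear_combination -h4
  rcases mul_eq_zero.mp h6 with h | h
  · exact sub_eq_zero.mp h
  · exact absurd h hn

lemma const_of_steps {m : ℕ} {x : CV} (h : ∀ k < m, x k = x (k + 1)) : ∀ k ≤ m, x k = x 0 := by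
  intro k
  induction k with
  | zero => intro _; rfl
  | succ k ih => intro hk; rw [← h k (by omega), ih (by omega)]

lemma mr_nec {m : ℕ} (hm : m ≠ 0) (q : ℕ) (x : CV) (hx : (mr t ht m ^ q) x = x)
    (hne : ∃ k ≤ m, x k ≠ x 0) : t ^ ((m + 1) * q) = 1 := by
  let d : CV → ℕ → ℂ := fun x k => if k < m then x k - x (k + 1) else x m - x 0
  let D : CV → ℕ → ℂ := fun x n => d x (n % (m + 1))
  have hd : ∃ k < m, x k ≠ x (k + 1) := by
    by_contra hc
    push Not at hc
    obtain ⟨k, hk, hkn⟩ := hne
    exact hkn (const_of_steps hc k hk)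
  obtain ⟨k, hk, hkn⟩ := hd
  have hit : (mr t ht m)^[q] x = x := by
    have : ∀ j, (mr t ht m)^[j] x = (mr t ht m ^ j) x := by
      intro j
      induction j with
      | zero => simp
      | succ j ih => rw [Function.iterate_succ_apply', ih, pow_succ', LinearEquiv.mul_apply]
    rw [this, hx]
  refine period_bwd t (mr t ht m) D (m + 1) ?_ ?_ x q hit k ?_
  · intro x n
    show d x ((n + (m + 1)) % (m + 1)) = d x (n % (m + 1))
    rw [Nat.add_mod_right]
  · intro x n
    show d (mr t ht m x) (n % (m + 1)) = t * d x ((n + 1) % (m + 1))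
    have hlt : n % (m + 1) < m + 1 := Nat.mod_lt _ (by omega)
    by_cases h : n % (m + 1) < m
    · have e : (n + 1) % (m + 1) = n % (m + 1) + 1 := by
        rw [Nat.add_mod, Nat.mod_eq_of_lt (show 1 < m + 1 by omega), Nat.mod_eq_of_lt]
        omega
      rw [e]
      set j := n % (m + 1)
      show (if j < m then mr t ht m x j - mr t ht m x (j + 1) else _) = t * (if j + 1 < m then
        x (j + 1) - x (j + 1 + 1) else x m - x 0)
      rw [if_pos h, mr_lt t ht m x j h]
      by_cases h2 : j + 1 < m
      · rw [if_pos h2, mr_lt t ht m x (j + 1) h2]; ring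
      · have : j + 1 = m := by omega
        rw [if_neg h2, this, mr_last]; ring
    · have h2 : n % (m + 1) = m := by omega
      have e : (n + 1) % (m + 1) = 0 := by
        rw [Nat.add_mod, h2, Nat.mod_eq_of_lt (show 1 < m + 1 by omega), Nat.mod_self]
      rw [e, h2]
      show (if m < m then _ else mr t ht m x m - mr t ht m x 0) = t * (if 0 < m then
        x 0 - x (0 + 1) else x m - x 0)
      rw [if_neg (by omega), if_pos (by omega), mr_last, mr_lt t ht m x 0 (by omega)]
      ring
  · show d x (k % (m + 1)) ≠ 0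
    rw [Nat.mod_eq_of_lt (by omega)]
    show (if k < m then x k - x (k + 1) else x m - x 0) ≠ 0
    rw [if_pos hk]
    exact sub_ne_zero.mpr hkn

lemma mf_wrap (m : ℕ) (x : CV) : mf t ht m (mf t ht m x) 0 - mf t ht m x 0
    = t * (t ^ m * (mf t ht m x m - x m)) := by
  rw [mf_zero t ht m (mf t ht m x), mf_zero t ht m x]
  set y := mf t ht m x with hy
  have h1 : ∑ k ∈ range m, t ^ k * y k + t ^ m * y m
      = t * ∑ k ∈ range m, t ^ k * x k + y 0 := by
    rw [← Finset.sum_range_succ, Finset.sum_range_succ', Finset.mul_sum]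
    congr 1
    · apply Finset.sum_congr rfl
      intro k hk
      rw [hy, mf_succ t ht m x k (Finset.mem_range.mp hk)]; ring
    · simp
  have h2 : y 0 = (1 - t) * ∑ k ∈ range m, t ^ k * x k + t ^ m * x m := by
    rw [hy, mf_zero]
  rw [h2] at h1
  linear_combination (1 - t) * h1

lemma mf_nec {m : ℕ} (hm : m ≠ 0) (q : ℕ) (x : CV) (hx : (mf t ht m ^ q) x = x)
    (hne : ∃ k ≤ m, x k ≠ x 0) : t ^ ((m + 1) * q) = 1 := by
  let d : CV → ℕ → ℂ := fun x k => t ^ k * (mf t ht m x k - x k)
  let D : CV → ℕ → ℂ := fun x n => d x (n % (m + 1))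
  have hd : ∃ k ≤ m, mf t ht m x k ≠ x k := by
    by_contra hc
    push Not at hc
    obtain ⟨k, hk, hkn⟩ := hne
    apply hkn
    apply const_of_steps _ k hk
    intro k hk
    rw [← hc (k + 1) (by omega), mf_succ t ht m x k hk]
  obtain ⟨k, hk, hkn⟩ := hd
  have hit : (mf t ht m)^[q] x = x := by
    have : ∀ j, (mf t ht m)^[j] x = (mf t ht m ^ j) x := by
      intro j
      induction j with
      | zero => simp
      | succ j ih => rw [Function.iterate_succ_apply', ih, pow_succ', LinearEquiv.mul_apply]
    rw [this, hx]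
  refine period_fwd t (mf t ht m) D (m + 1) ?_ ?_ x q hit k ?_
  · intro x n
    show d x ((n + (m + 1)) % (m + 1)) = d x (n % (m + 1))
    rw [Nat.add_mod_right]
  · intro x n
    show d (mf t ht m x) ((n + 1) % (m + 1)) = t * d x (n % (m + 1))
    have hlt : n % (m + 1) < m + 1 := Nat.mod_lt _ (by omega)
    by_cases h : n % (m + 1) < m
    · have e : (n + 1) % (m + 1) = n % (m + 1) + 1 := by
        rw [Nat.add_mod, Nat.mod_eq_of_lt (show 1 < m + 1 by omega), Nat.mod_eq_of_lt]
        omega
      rw [e]
      set j := n % (m + 1)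
      show t ^ (j + 1) * (mf t ht m (mf t ht m x) (j + 1) - mf t ht m x (j + 1))
        = t * (t ^ j * (mf t ht m x j - x j))
      rw [mf_succ t ht m _ j h, mf_succ t ht m _ j h]; ring
    · have h2 : n % (m + 1) = m := by omega
      have e : (n + 1) % (m + 1) = 0 := by
        rw [Nat.add_mod, h2, Nat.mod_eq_of_lt (show 1 < m + 1 by omega), Nat.mod_self]
      rw [e, h2]
      show t ^ 0 * (mf t ht m (mf t ht m x) 0 - mf t ht m x 0)
        = t * (t ^ m * (mf t ht m x m - x m))
      rw [pow_zero, one_mul, mf_wrap]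
  · show d x (k % (m + 1)) ≠ 0
    rw [Nat.mod_eq_of_lt (by omega)]
    exact mul_ne_zero (pow_ne_zero _ ht) (sub_ne_zero.mpr hkn)

/-! ### Existence of colourings -/

lemma pow_eigen {M : CV ≃ₗ[ℂ] CV} {x : CV} {l : ℂ} (h : M x = l • x) (q : ℕ) :
    (M ^ q) x = l ^ q • x := by
  induction q with
  | zero => simp
  | succ q ih => rw [pow_succ', LinearEquiv.mul_apply, ih, map_smul, h, smul_smul, pow_succ]

lemma mf_col {m : ℕ} (hm : m ≠ 0) {l : ℂ} (hl : l ^ (m + 1) = t ^ (m + 1)) (hlt : l ≠ t)
    (hl1 : l ≠ 1) : ∃ x : CV, mf t ht m x = l • x ∧ ∃ k ≤ m, x k ≠ x 0 := by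
  refine ⟨fun k => if k ≤ m then l ^ (m - k) else 0, ?_, ?_⟩
  · funext k
    simp only [Pi.smul_apply, smul_eq_mul]
    rcases Nat.eq_zero_or_pos k with hk | hk
    · subst hk
      rw [mf_zero]
      simp only [le_refl, if_true, Nat.sub_self, pow_zero, mul_one, Nat.zero_le, Nat.sub_zero]
      have h1 : ∑ k ∈ range m, t ^ k * (if k ≤ m then l ^ (m - k) else 0)
          = l * ∑ k ∈ range m, t ^ k * l ^ (m - 1 - k) := by
        rw [Finset.mul_sum]
        apply Finset.sum_congr rfl
        intro k hk
        have hk' := Finset.mem_range.mp hk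
        rw [if_pos (by omega)]
        have : m - k = (m - 1 - k) + 1 := by omega
        rw [this, pow_succ]; ring
      rw [h1]
      have h2 := geom_sum₂_mul t l m
      have h3 : t - l ≠ 0 := sub_ne_zero.mpr (Ne.symm hlt)
      apply mul_right_cancel₀ h3
      set S := ∑ k ∈ range m, t ^ k * l ^ (m - 1 - k)
      have h4 : l ^ m * l = t ^ m * t := by rw [← pow_succ, ← pow_succ, hl]
      linear_combination (1 - t) * l * h2 + (t - l + l - 1) * h4 - (t - l) * h4
        + (1 - t) * h4 * 0
    · obtain ⟨j, rfl⟩ : ∃ j, k = j + 1 := ⟨k - 1, by omega⟩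
      by_cases hj : j < m
      · rw [mf_succ t ht m _ j hj, if_pos (by omega), if_pos (by omega)]
        have : m - j = (m - (j + 1)) + 1 := by omega
        rw [this, pow_succ]; ring
      · rw [mf_far t ht m _ _ (by omega), if_neg (by omega)]; ring
  · by_contra hc
    push Not at hc
    have h1 := hc m le_rfl
    have h2 := hc (m - 1) (by omega)
    rw [← h2] at h1
    simp only [le_refl, if_true, Nat.sub_self, pow_zero] at h1
    rw [if_pos (by omega)] at h1
    have : m - (m - 1) = 1 := by omega
    rw [this, pow_one] at h1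
    exact hl1 h1.symm

lemma mr_col {m : ℕ} (hm : m ≠ 0) {l : ℂ} (hl : l ^ (m + 1) = t ^ (m + 1)) (hlt : l ≠ t)
    (hl1 : l ≠ 1) : ∃ x : CV, mr t ht m x = l • x ∧ ∃ k ≤ m, x k ≠ x 0 := by
  have hl1' : l - 1 ≠ 0 := sub_ne_zero.mpr hl1
  obtain ⟨C, hC⟩ : ∃ C : ℂ, C * (l - 1) = 1 - t := ⟨(1 - t) / (l - 1), by field_simp⟩
  have hw : t * (l / t) = l := by field_simp
  have hlm : l * (l / t) ^ m = t := by
    rw [div_pow]
    have : t ^ m ≠ 0 := pow_ne_zero _ ht
    field_simp
    rw [← pow_succ', hl, pow_succ]
  set w := l / t with hwdef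
  refine ⟨fun k => if k ≤ m then C + w ^ k else 0, ?_, 1, by omega, ?_⟩
  · funext k
    simp only [Pi.smul_apply, smul_eq_mul]
    rcases lt_trichotomy k m with hk | hk | hk
    · rw [mr_lt t ht m _ k hk, if_pos (by omega), if_pos (by omega), if_pos (by omega), pow_zero,
        pow_succ]
      linear_combination (-1 : ℂ) * hC + w ^ k * hw
    · subst hk
      rw [mr_last, if_pos (by omega), if_pos (by omega), pow_zero]
      linear_combination (-1 : ℂ) * hC - hlm
    · rw [mr_far t ht m _ k hk, if_neg (by omega), mul_zero]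
  · show (if 1 ≤ m then C + w ^ 1 else 0) ≠ (if 0 ≤ m then C + w ^ 0 else 0)
    rw [if_pos (by omega), if_pos (by omega), pow_one, pow_zero]
    intro h
    have : w = 1 := by linear_combination h
    rw [this, mul_one] at hw
    exact hlt hw.symm

end Pool.Agent.SpiralKnots
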