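import Pool.Agent.SpiralKnots.Params

/-!
# Comparison of closures of signed words
-/

open Polynomial

namespace Pool.Agent.SpiralKnots

/-- braid of a word with a sign pattern -/
def bw {m : ℕ} (ε : ℕ → Bool) (w : List (Fin m)) : Braid m :=
  (w.map (fun i : Fin m => if ε i.val then sg i else (sg i)⁻¹)).prod

lemma mirror_bw {m : ℕ} (ε : ℕ → Bool) (w : List (Fin m)) :
    mirror m (bw ε w) = bw (fun k => !ε k) w := by
  unfold bw
  rw [map_list_prod, List.map_map]
  congr 1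
  apply List.map_congr_left
  intro i _
  simp only [Function.comp_apply]
  by_cases h : ε i.val = true
  · rw [if_pos h, if_neg (by simp [h]), mirror, braidLift_sg]
  · rw [if_neg h, if_pos (by simpa using h), mirror, map_inv, braidLift_sg, inv_inv]

lemma reverse_bw {m : ℕ} (ε : ℕ → Bool) (w : List (Fin m)) :
    (reverse m (bw ε w)).unop = bw ε w.reverse := by
  unfold bw
  rw [map_list_prod, MulOpposite.unop_list_prod, List.map_map, List.map_map, List.map_reverse]
  congr 2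
  apply List.map_congr_left
  intro i _
  simp only [Function.comp_apply]
  by_cases h : ε i.val = true
  · rw [if_pos h, reverse, braidLift_sg]; rfl
  · rw [if_neg h, reverse, map_inv, braidLift_sg]; rfl

/-- the scalar of one letter -/
noncomputable def sc (ε : ℕ → Bool) (K : ℝ) (i : ℕ) : ℝ := if ε i then K⁻¹ else -K

lemma sc_ne (ε : ℕ → Bool) {K : ℝ} (hK : K ≠ 0) (i : ℕ) : sc ε K i ≠ 0 := by
  unfold sc; split_ifs
  · exact inv_ne_zero hK
  · exact neg_ne_zero.mpr hK

/-- scalar of a word -/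
noncomputable def scw {m : ℕ} (ε : ℕ → Bool) (K : ℝ) (w : List (Fin m)) : ℝ :=
  (w.map (fun i : Fin m => sc ε K i.val)).prod

lemma scw_ne {m : ℕ} (ε : ℕ → Bool) {K : ℝ} (hK : K ≠ 0) (w : List (Fin m)) :
    scw ε K w ≠ 0 := by
  unfold scw
  induction w with
  | nil => simp
  | cons i w ih => simp only [List.map_cons, List.prod_cons]; exact mul_ne_zero (sc_ne ε hK i) ih

namespace RData

variable (P : RData)

lemma rep_bw {m : ℕ} (ε : ℕ → Bool) (w : List (Fin m)) :
    (P.rep m (bw ε w) : Op (St P.N (m + 1)))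
      = (P.z ^ w.length * scw ε P.K w) • P.xw ε m (w.map Fin.val) := by
  induction w with
  | nil => simp [bw, scw, xw]
  | cons i w ih =>
    have h1 : bw ε (i :: w) = (if ε i then sg i else (sg i)⁻¹) * bw ε w := by simp [bw]
    have h2 : (P.rep m (if ε i then sg i else (sg i)⁻¹) : Op (St P.N (m + 1)))
        = (P.z * sc ε P.K i) • P.xop ε m i := by
      have hz := P.hz
      unfold sc xop uop
      split_ifs
      · rw [rep, braidLift_sg]
        show P.K⁻¹ • P.G m i = _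
        rw [smul_smul]
        congr 1
        field_simp
      · rw [map_inv, rep, braidLift_sg]
        show P.K • (P.G m i - P.z • 1) = _
        rw [smul_sub, smul_sub, smul_smul, smul_smul]
        have e1 : P.z * -P.K * P.z⁻¹ = -P.K := by field_simp
        have e2 : P.z * -P.K = -(P.K * P.z) := by ring
        rw [e1, e2, neg_smul, neg_smul]
        abel
    rw [h1, map_mul, Units.val_mul, h2, ih, smul_mul_smul_comm]
    simp only [List.map_cons, List.length_cons, xw_cons, scw, List.prod_cons]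
    congr 1
    ring

lemma J_bw {m : ℕ} (ε : ℕ → Bool) (w : List (Fin m)) :
    P.J ⟨m, bw ε w⟩ = P.z ^ w.length * scw ε P.K w * P.D ^ (m + 1) * P.t ε (w.map Fin.val) := by
  unfold J
  rw [rep_bw, T_smul]
  have h : ∀ k ∈ w.map Fin.val, k < m := by
    intro k hk
    obtain ⟨i, _, rfl⟩ := List.mem_map.mp hk
    exact i.2
  rw [P.t_eq ε h, tw]
  have := P.D_ne
  field_simp

end RData

/-- the parameter `c` as a function of `K` -/
noncomputable def cOf (K : ℝ) : ℝ := K / (K - K⁻¹)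

lemma kk_pos {K : ℝ} (hK : 1 < K) : 0 < K - K⁻¹ := by
  have : K⁻¹ < 1 := inv_lt_one_of_one_lt₀ hK
  linarith

lemma cOf_ne_zero {K : ℝ} (hK : 1 < K) : cOf K ≠ 0 := by
  have := kk_pos hK
  unfold cOf
  positivity

lemma cOf_ne_one {K : ℝ} (hK : 1 < K) : cOf K ≠ 1 := by
  have := kk_pos hK
  unfold cOf
  rw [Ne, div_eq_one_iff_eq this.ne']
  have h2 : 0 < K⁻¹ := by positivity
  intro h; linarith

/-- the fundamental comparison -/
theorem compare_le {ε ε' : ℕ → Bool} {m m' : ℕ} (w : List (Fin m)) (w' : List (Fin m'))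
    (e e' : ℕ) (he : w.length = m + 2 * e) (he' : w'.length = m' + 2 * e') (hee : e ≤ e')
    (h : SameClosure ⟨m, bw ε w⟩ ⟨m', bw ε' w'⟩) {K : ℝ} (hK : 1 < K) :
    e = e' ∧ th (cOf K) ε (w.map Fin.val) = th (cOf K) ε' (w'.map Fin.val) := by
  have hK0 : K ≠ 0 := by positivity
  have hKK := kk_pos hK
  have hc : ∀ n, (fam hK n).cpar = cOf K := fun n => by
    unfold RData.cpar cOf; rw [fam_K]
  obtain ⟨F, F0, F1, F2⟩ := goodWord (cOf_ne_zero hK) (cOf_ne_one hK)
    (traceFamily (fam hK) (cOf K) hc ε) (w.map Fin.val)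
  obtain ⟨F', F0', F1', F2'⟩ := goodWord (cOf_ne_zero hK) (cOf_ne_one hK)
    (traceFamily (fam hK) (cOf K) hc ε') (w'.map Fin.val)
  obtain ⟨A, hA⟩ : ∃ A : ℝ, A = scw ε K w * (K - K⁻¹) ^ (m + 1) := ⟨_, rfl⟩
  obtain ⟨A', hA'⟩ : ∃ A' : ℝ, A' = scw ε' K w' * (K - K⁻¹) ^ (m' + 1) := ⟨_, rfl⟩
  have hA0 : A ≠ 0 := by
    rw [hA]; exact mul_ne_zero (scw_ne ε hK0 w) (pow_ne_zero _ hKK.ne')
  have hA0' : A' ≠ 0 := by
    rw [hA']; exact mul_ne_zero (scw_ne ε' hK0 w') (pow_ne_zero _ hKK.ne')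
  obtain ⟨d, hd⟩ := Nat.exists_eq_add_of_le hee
  -- polynomial identity
  have hpt : ∀ n, (C A * X ^ d * F).eval ((fam hK n).hpar) = (C A' * F').eval ((fam hK n).hpar) := by
    intro n
    have hJ := (fam hK n).J_same h
    have F2n : (fam hK n).t ε (w.map Fin.val) = F.eval ((fam hK n).hpar) := F2 n
    have F2n' : (fam hK n).t ε' (w'.map Fin.val) = F'.eval ((fam hK n).hpar) := F2' n
    rw [RData.J_bw, RData.J_bw, F2n, F2n', fam_K] at hJ
    have hz := fam_z_pos hK n
    have hzD : (fam hK n).z * (fam hK n).D = K - K⁻¹ := by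
      have := (fam hK n).hD
      rw [fam_K] at this
      exact this
    have hD : (fam hK n).D = (K - K⁻¹) / (fam hK n).z :=
      eq_div_of_mul_eq hz.ne' (by rw [mul_comm]; exact hzD)
    rw [hD, he, he', hd] at hJ
    simp only [eval_mul, eval_C, eval_pow, eval_X]
    set z := (fam hK n).z with hzdef
    set u := eval (fam hK n).hpar F with hu
    set u' := eval (fam hK n).hpar F' with hu'
    have hh : (fam hK n).hpar = (z⁻¹) ^ 2 := rfl
    rw [hh]
    rw [hA, hA']
    rw [div_pow, div_pow] at hJ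
    have hz0 : z ≠ 0 := hz.ne'
    have e1 : z ^ (m + 2 * e) * scw ε K w * ((K - K⁻¹) ^ (m + 1) / z ^ (m + 1)) * u
        = z ^ (2 * e) * z⁻¹ * (scw ε K w * (K - K⁻¹) ^ (m + 1) * u) := by
      rw [pow_add, pow_succ z m]
      field_simp
    have e2 : z ^ (m' + 2 * (e + d)) * scw ε' K w' * ((K - K⁻¹) ^ (m' + 1) / z ^ (m' + 1)) * u'
        = z ^ (2 * e) * z⁻¹ * (z ^ (2 * d) * (scw ε' K w' * (K - K⁻¹) ^ (m' + 1) * u')) := by
      rw [mul_add, pow_add, pow_add, pow_succ z m']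
      field_simp
    rw [e1, e2] at hJ
    have e3 := mul_left_cancel₀ (mul_ne_zero (pow_ne_zero _ hz0) (inv_ne_zero hz0)) hJ
    have e4 : ((z⁻¹) ^ 2) ^ d * z ^ (2 * d) = 1 := by
      rw [← pow_mul, inv_pow, inv_mul_cancel₀ (pow_ne_zero _ hz0)]
    calc scw ε K w * (K - K⁻¹) ^ (m + 1) * ((z⁻¹) ^ 2) ^ d * u
        = ((z⁻¹) ^ 2) ^ d * (scw ε K w * (K - K⁻¹) ^ (m + 1) * u) := by ring
      _ = ((z⁻¹) ^ 2) ^ d * (z ^ (2 * d) * (scw ε' K w' * (K - K⁻¹) ^ (m' + 1) * u')) := by
          rw [e3]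
      _ = (((z⁻¹) ^ 2) ^ d * z ^ (2 * d)) * (scw ε' K w' * (K - K⁻¹) ^ (m' + 1) * u') := by ring
      _ = scw ε' K w' * (K - K⁻¹) ^ (m' + 1) * u' := by rw [e4, one_mul]
  have hpoly : C A * X ^ d * F = C A' * F' := by
    apply Polynomial.eq_of_infinite_eval_eq
    apply (Set.infinite_range_of_injective (fam_h_inj hK)).mono
    rintro _ ⟨n, rfl⟩
    exact hpt n
  have hth := th0_ne (cOf_ne_zero hK) (cOf_ne_one hK) ε (w.map Fin.val)
  have hth' := th0_ne (cOf_ne_zero hK) (cOf_ne_one hK) ε' (w'.map Fin.val)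
  have hd0 : d = 0 := by
    by_contra hne
    obtain ⟨d', rfl⟩ := Nat.exists_eq_succ_of_ne_zero hne
    have := congrArg (fun p => p.coeff 0) hpoly
    simp only [mul_assoc, coeff_C_mul, F0'] at this
    rw [pow_succ', mul_assoc, coeff_X_mul_zero, mul_zero] at this
    exact (mul_ne_zero hA0' hth') this.symm
  subst hd0
  rw [pow_zero, mul_one] at hpoly
  have c0 := congrArg (fun p => p.coeff 0) hpoly
  have c1 := congrArg (fun p => p.coeff 1) hpoly
  simp only [coeff_C_mul, F0, F0', F1, F1'] at c0 c1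
  refine ⟨by omega, ?_⟩
  rw [← mul_assoc, ← mul_assoc, c0] at c1
  exact mul_left_cancel₀ (mul_ne_zero hA0' hth') c1

theorem compare {ε ε' : ℕ → Bool} {m m' : ℕ} (w : List (Fin m)) (w' : List (Fin m'))
    (e e' : ℕ) (he : w.length = m + 2 * e) (he' : w'.length = m' + 2 * e')
    (h : SameClosure ⟨m, bw ε w⟩ ⟨m', bw ε' w'⟩) :
    e = e' ∧ ∀ K : ℝ, 1 < K →
      th (cOf K) ε (w.map Fin.val) = th (cOf K) ε' (w'.map Fin.val) := by
  rcases le_total e e' with hee | hee
  · refine ⟨(compare_le w w' e e' he he' hee h (K := 2) (by norm_num)).1, fun K hK =>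
      (compare_le w w' e e' he he' hee h hK).2⟩
  · have h' : SameClosure ⟨m', bw ε' w'⟩ ⟨m, bw ε w⟩ := Relation.EqvGen.symm _ _ h
    refine ⟨((compare_le w' w e' e he' he hee h' (K := 2) (by norm_num)).1).symm, fun K hK =>
      ((compare_le w' w e' e he' he hee h' hK).2).symm⟩

end Pool.Agent.SpiralKnots
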