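import Pool.Agent.SpiralKnots.Burau

/-!
# The parameters of a spiral knot: core argument
-/

open Finset

namespace Pool.Agent.SpiralKnots

/-- one period of a spiral word, increasing or decreasing -/
inductive IsPer (m : ℕ) : List (Fin m) → Prop
  | inc : IsPer m (List.finRange m)
  | dec : IsPer m (List.finRange m).reverse

lemma map_val_finRange (m : ℕ) : (List.finRange m).map Fin.val = List.range m := by
  simp

lemma IsPer.map {m : ℕ} {L : List (Fin m)} (h : IsPer m L) : IsPeriod m (L.map Fin.val) := by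
  cases h
  · rw [map_val_finRange]; exact IsPeriod.inc
  · rw [List.map_reverse, map_val_finRange]; exact IsPeriod.dec

lemma IsPer.reverse {m : ℕ} {L : List (Fin m)} (h : IsPer m L) : IsPer m L.reverse := by
  cases h
  · exact IsPer.dec
  · rw [List.reverse_reverse]; exact IsPer.inc

lemma IsPer.length {m : ℕ} {L : List (Fin m)} (h : IsPer m L) : L.length = m := by
  cases h <;> simp

lemma bw_append {m : ℕ} (ε : ℕ → Bool) (w w' : List (Fin m)) :
    bw ε (w ++ w') = bw ε w * bw ε w' := by simp [bw]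

lemma bw_wpow {m : ℕ} (ε : ℕ → Bool) (q : ℕ) (L : List (Fin m)) :
    bw ε (wpow q L) = (bw ε L) ^ q := by
  induction q with
  | zero => simp [wpow, bw]
  | succ q ih => rw [wpow_succ, bw_append, ih, pow_succ']

lemma bw_congr {m : ℕ} {ε ε' : ℕ → Bool} (h : ∀ k < m, ε k = ε' k) (w : List (Fin m)) :
    bw ε w = bw ε' w := by
  unfold bw
  congr 1
  apply List.map_congr_left
  intro i _
  rw [h i i.2]

lemma bw_neg {m : ℕ} (w : List (Fin m)) :
    bw (fun _ => false) w = (bw (fun _ => true) w.reverse)⁻¹ := by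
  induction w with
  | nil => simp [bw]
  | cons i w ih =>
    have h1 : bw (fun _ => false) (i :: w) = (sg i)⁻¹ * bw (fun _ => false) w := by simp [bw]
    rw [h1, ih, List.reverse_cons, bw_append, mul_inv_rev]
    simp [bw]

section torus

variable (t : ℂ) (ht : t ≠ 0)

lemma brep_bw {m : ℕ} {L : List (Fin m)} :
    brep t ht m (bw (fun _ => true) L)
      = ((L.map Fin.val).map (fun i => bur t ht i)).prod := by
  unfold bw
  rw [map_list_prod, List.map_map, List.map_map]
  congr 1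

lemma brep_per {m : ℕ} {L : List (Fin m)} (hL : IsPer m L) :
    brep t ht m (bw (fun _ => true) L) = mf t ht m ∨
    brep t ht m (bw (fun _ => true) L) = mr t ht m := by
  rw [brep_bw]
  cases hL
  · left; rw [map_val_finRange, mf_eq]
  · right; rw [List.map_reverse, map_val_finRange, mr_eq]

/-- a colouring of a torus braid forces `t ^ (p q) = 1` -/
lemma col_nec {m : ℕ} (hm : m ≠ 0) (q : ℕ) {L : List (Fin m)} (hL : IsPer m L)
    (h : Col t ht ⟨m, bw (fun _ => true) (wpow q L)⟩) : t ^ ((m + 1) * q) = 1 := by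
  obtain ⟨x, hx, hne⟩ := h
  have hx' : brep t ht m (bw (fun _ => true) (wpow q L)) x = x := hx
  rw [bw_wpow, map_pow] at hx'
  rcases brep_per t ht hL with h | h
  · rw [h] at hx'; exact mf_nec t ht hm q x hx' hne
  · rw [h] at hx'; exact mr_nec t ht hm q x hx' hne

/-- existence of colourings -/
lemma col_suf {m : ℕ} (hm : m ≠ 0) (q : ℕ) {L : List (Fin m)} (hL : IsPer m L)
    {l : ℂ} (hl : l ^ (m + 1) = t ^ (m + 1)) (hlt : l ≠ t) (hl1 : l ≠ 1) (hq : l ^ q = 1) :
    Col t ht ⟨m, bw (fun _ => true) (wpow q L)⟩ := by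
  have key : ∀ M : CV ≃ₗ[ℂ] CV, brep t ht m (bw (fun _ => true) L) = M →
      (∃ x : CV, M x = l • x ∧ ∃ k ≤ m, x k ≠ x 0) →
      Col t ht ⟨m, bw (fun _ => true) (wpow q L)⟩ := by
    rintro M hM ⟨x, hx, hne⟩
    refine ⟨x, ?_, hne⟩
    show brep t ht m (bw (fun _ => true) (wpow q L)) x = x
    rw [bw_wpow, map_pow, hM, pow_eigen hx q, hq, one_smul]
  rcases brep_per t ht hL with h | h
  · exact key _ h (mf_col t ht hm hl hlt hl1)
  · exact key _ h (mr_col t ht hm hl hlt hl1)

end torus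

lemma prim_pow_iff {n : ℕ} {t : ℂ} (ht0 : t ≠ 0) (ht : IsPrimitiveRoot t n) (a b : ℕ) :
    t ^ a = t ^ b ↔ a ≡ b [MOD n] := by
  rw [Nat.modEq_iff_dvd, ← ht.zpow_eq_one_iff_dvd, zpow_sub₀ ht0, zpow_natCast, zpow_natCast,
    div_eq_one_iff_eq (pow_ne_zero _ ht0)]
  exact eq_comm

lemma root_exists {p q : ℕ} (hp : 2 ≤ p) (hq : 2 ≤ q) (hc : p.Coprime q) {t : ℂ}
    (ht : IsPrimitiveRoot t (p * q)) :
    ∃ l : ℂ, l ^ p = t ^ p ∧ l ≠ t ∧ l ≠ 1 ∧ l ^ q = 1 := by
  obtain ⟨j, hj1, hj2⟩ := Nat.chineseRemainder hc 0 1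
  have hpos : 0 < p * q := by positivity
  have hpj : p ∣ j := (Nat.modEq_zero_iff_dvd).mp hj1
  have ht0 : t ≠ 0 := ht.ne_zero hpos.ne'
  have hinj : ∀ a b : ℕ, t ^ a = t ^ b → a ≡ b [MOD p * q] :=
    fun a b h => (prim_pow_iff ht0 ht a b).mp h
  refine ⟨t ^ j, ?_, ?_, ?_, ?_⟩
  · rw [← pow_mul]
    have : j * p ≡ p [MOD p * q] := by
      have := Nat.ModEq.mul_left' p hj2
      rw [mul_one] at this
      rw [mul_comm j p]
      exact this
    exact (prim_pow_iff ht0 ht _ _).mpr this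
  · intro h
    have h1 := hinj j 1 (by rw [pow_one]; exact h)
    have h2 : j ≡ 1 [MOD p] := h1.of_mul_right q
    have h3 : 0 ≡ 1 [MOD p] := hj1.symm.trans h2
    have h4 := (Nat.modEq_iff_dvd' (by norm_num : 0 ≤ 1)).mp h3
    have := Nat.le_of_dvd (by norm_num) h4
    omega
  · intro h
    have h1 := hinj j 0 (by rw [pow_zero]; exact h)
    have h2 : j ≡ 0 [MOD q] := h1.of_mul_left p
    have h3 : 0 ≡ 1 [MOD q] := h2.symm.trans hj2
    have h4 := (Nat.modEq_iff_dvd' (by norm_num : 0 ≤ 1)).mp h3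
    have := Nat.le_of_dvd (by norm_num) h4
    omega
  · rw [← pow_mul]
    obtain ⟨c, hc⟩ := hpj
    have : j * q = (p * q) * c := by rw [hc]; ring
    rw [this, pow_mul, ht.pow_eq_one, one_pow]

/-- comparison of torus braids -/
lemma torus_dvd {m m' q q' : ℕ} (hm : m ≠ 0) (hm' : m' ≠ 0) (hq : 2 ≤ q)
    (hc : (m + 1).Coprime q) {L : List (Fin m)} {L' : List (Fin m')} (hL : IsPer m L)
    (hL' : IsPer m' L')
    (h : ∀ (t : ℂ) (ht : t ≠ 0), Col t ht ⟨m, bw (fun _ => true) (wpow q L)⟩ →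
      Col t ht ⟨m', bw (fun _ => true) (wpow q' L')⟩) : (m + 1) * q ∣ (m' + 1) * q' := by
  have hpos : (m + 1) * q ≠ 0 := by positivity
  have hprim := Complex.isPrimitiveRoot_exp _ hpos
  set t := Complex.exp (2 * Real.pi * Complex.I / ((m + 1) * q : ℕ)) with htdef
  have ht : t ≠ 0 := Complex.exp_ne_zero _
  obtain ⟨l, h1, h2, h3, h4⟩ := root_exists (by omega) hq hc hprim
  have h5 := col_suf t ht hm q hL h1 h2 h3 h4
  have h6 := col_nec t ht hm' q' hL' (h t ht h5)
  exact (hprim.pow_eq_one_iff_dvd _).mp h6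

lemma const_of_sn {m : ℕ} {ε : ℕ → Bool} (h : sn m ε = 0) : ∀ k < m, ε k = ε 0 := by
  intro k
  induction k with
  | zero => intro _; rfl
  | succ k ih =>
    intro hk
    unfold sn at h
    rw [Finset.card_eq_zero, Finset.filter_eq_empty_iff] at h
    have := h (Finset.mem_range.mpr (show k < m by omega))
    push Not at this
    rw [← this hk, ih (by omega)]

lemma rp_const {m : ℕ} (hm : m ≠ 0) {ε : ℕ → Bool} (h : sn m ε = 0) :
    rp m ε = if ε 0 then 1 else 0 := by
  have h1 := const_of_sn h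
  have h2 := runs_eq m ε hm
  cases h0 : ε 0
  · simp only [Bool.false_eq_true, if_false]
    unfold rp
    rw [Finset.card_eq_zero, Finset.filter_eq_empty_iff]
    intro k hk
    rw [h1 k (Finset.mem_range.mp hk), h0]
    simp
  · simp only [if_true]
    have : rn m ε = 0 := by
      unfold rn
      rw [Finset.card_eq_zero, Finset.filter_eq_empty_iff]
      intro k hk
      rw [h1 k (Finset.mem_range.mp hk), h0]
      simp
    omega

lemma even_prod {m q : ℕ} (hc : (m + 1).Coprime q) : ∃ e, m * (q - 1) = 2 * e := by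
  rcases Nat.even_or_odd m with h | h
  · obtain ⟨a, ha⟩ := h
    exact ⟨a * (q - 1), by rw [ha]; ring⟩
  · have h1 : Odd q := by
      by_contra hq2
      rw [Nat.not_odd_iff_even] at hq2
      have h2 : 2 ∣ m + 1 := by obtain ⟨a, ha⟩ := h; exact ⟨a + 1, by rw [ha]; ring⟩
      have h3 : 2 ∣ q := hq2.two_dvd
      have := Nat.dvd_gcd h2 h3
      rw [hc] at this
      omega
    obtain ⟨a, ha⟩ := h1
    exact ⟨m * a, by rw [ha]; simp; ring⟩

theorem core {m m' q q' : ℕ} (hm : m ≠ 0) (hm' : m' ≠ 0) (hq : 2 ≤ q) (hq' : 2 ≤ q')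
    (hc : (m + 1).Coprime q) (hc' : (m' + 1).Coprime q') {L : List (Fin m)} {L' : List (Fin m')}
    (hL : IsPer m L) (hL' : IsPer m' L') (ε ε' : ℕ → Bool)
    (h : SameClosure ⟨m, bw ε (wpow q L)⟩ ⟨m', bw ε' (wpow q' L')⟩) :
    (m = m' ∧ q = q') ∨ (sn m ε = 0 ∧ m + 1 = q' ∧ q = m' + 1) := by
  obtain ⟨e, he⟩ := even_prod hc
  obtain ⟨e', he'⟩ := even_prod hc'
  have hlen : (wpow q L).length = m + 2 * e := by
    rw [wpow_length, hL.length, ← he]
    obtain ⟨a, rfl⟩ : ∃ a, q = a + 1 := ⟨q - 1, by omega⟩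
    simp; ring
  have hlen' : (wpow q' L').length = m' + 2 * e' := by
    rw [wpow_length, hL'.length, ← he']
    obtain ⟨a, rfl⟩ : ∃ a, q' = a + 1 := ⟨q' - 1, by omega⟩
    simp; ring
  obtain ⟨hee, hth⟩ := compare _ _ e e' hlen hlen' h
  have hprod : m * (q - 1) = m' * (q' - 1) := by rw [he, he', hee]
  have hprodR : (m : ℝ) * ((q : ℝ) - 1) = m' * ((q' : ℝ) - 1) := by
    have h1 : ((q - 1 : ℕ) : ℝ) = (q : ℝ) - 1 := by
      rw [Nat.cast_sub (by omega)]; simp
    have h2 : ((q' - 1 : ℕ) : ℝ) = (q' : ℝ) - 1 := by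
      rw [Nat.cast_sub (by omega)]; simp
    rw [← h1, ← h2]
    exact_mod_cast hprod
  have hsys : ∀ K : ℝ, 1 < K →
      (rp m ε : ℝ) * (K ^ 2)⁻¹ + (rn m ε : ℝ) * K ^ 2 + (sn m ε : ℝ) * ((q : ℝ) - 1)
      = (rp m' ε' : ℝ) * (K ^ 2)⁻¹ + (rn m' ε' : ℝ) * K ^ 2 + (sn m' ε' : ℝ) * ((q' : ℝ) - 1) := by
    intro K hK
    have := hth K hK
    rw [wpow_map, wpow_map, th_spiral hq hL.map ε hK, th_spiral hq' hL'.map ε' hK] at this
    linarith
  obtain ⟨h1, h2, h3⟩ := solve3 hsys
  have h1' : rp m ε = rp m' ε' := by exact_mod_cast h1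
  have h2' : rn m ε = rn m' ε' := by exact_mod_cast h2
  have hr := runs_eq m ε hm
  have hr' := runs_eq m' ε' hm'
  have hs : sn m ε = sn m' ε' := by omega
  by_cases hs0 : sn m ε = 0
  · -- torus knots
    have hs0' : sn m' ε' = 0 := by omega
    have c1 := const_of_sn hs0
    have c2 := const_of_sn hs0'
    have r1 := rp_const hm hs0
    have r2 := rp_const hm' hs0'
    have hsame : ε 0 = ε' 0 := by
      rw [h1', r2] at r1
      revert r1
      cases ε 0 <;> cases ε' 0 <;> simp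
    have htor : ∃ (M : List (Fin m)) (M' : List (Fin m')), IsPer m M ∧ IsPer m' M' ∧
        ∀ (t : ℂ) (ht : t ≠ 0), (Col t ht ⟨m, bw (fun _ => true) (wpow q M)⟩ ↔
          Col t ht ⟨m', bw (fun _ => true) (wpow q' M')⟩) := by
      cases hb : ε 0
      · refine ⟨L.reverse, L'.reverse, hL.reverse, hL'.reverse, fun t ht => ?_⟩
        have e1 : bw ε (wpow q L) = (bw (fun _ => true) (wpow q L.reverse))⁻¹ := by
          rw [bw_congr (ε' := fun _ => false) (fun k hk => by rw [c1 k hk, hb]), bw_neg,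
            wpow_reverse]
        have e2 : bw ε' (wpow q' L') = (bw (fun _ => true) (wpow q' L'.reverse))⁻¹ := by
          rw [bw_congr (ε' := fun _ => false) (fun k hk => by rw [c2 k hk, ← hsame, hb]), bw_neg,
            wpow_reverse]
        have := col_same t ht h
        rw [e1, e2, col_inv, col_inv] at this
        exact this
      · refine ⟨L, L', hL, hL', fun t ht => ?_⟩
        have e1 : bw ε (wpow q L) = bw (fun _ => true) (wpow q L) :=
          bw_congr (fun k hk => by rw [c1 k hk, hb]) _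
        have e2 : bw ε' (wpow q' L') = bw (fun _ => true) (wpow q' L') :=
          bw_congr (fun k hk => by rw [c2 k hk, ← hsame, hb]) _
        have := col_same t ht h
        rw [e1, e2] at this
        exact this
    obtain ⟨M, M', hM, hM', hcol⟩ := htor
    have d1 := torus_dvd hm hm' hq hc hM hM' (fun t ht => (hcol t ht).mp)
    have d2 := torus_dvd hm' hm hq' hc' hM' hM (fun t ht => (hcol t ht).mpr)
    have heq : (m + 1) * q = (m' + 1) * q' := Nat.dvd_antisymm d1 d2
    -- solve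
    have hsum : m + q = m' + q' := by
      obtain ⟨a, rfl⟩ : ∃ a, q = a + 1 := ⟨q - 1, by omega⟩
      obtain ⟨a', rfl⟩ : ∃ a', q' = a' + 1 := ⟨q' - 1, by omega⟩
      simp only [Nat.add_sub_cancel] at hprod
      nlinarith
    have hfac : ((m : ℤ) - m') * ((m : ℤ) + 1 - q') = 0 := by
      have e1 : ((m : ℤ) + 1) * q = (m' + 1) * q' := by exact_mod_cast heq
      have e2 : (q : ℤ) = m' + q' - m := by
        have : (m : ℤ) + q = m' + q' := by exact_mod_cast hsum
        linarith
      rw [e2] at e1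
      linear_combination -e1
    rcases mul_eq_zero.mp hfac with h5 | h5
    · left
      have : (m : ℤ) = m' := by linarith
      have : m = m' := by exact_mod_cast this
      exact ⟨this, by omega⟩
    · right
      have : (m : ℤ) + 1 = q' := by linarith
      have : m + 1 = q' := by exact_mod_cast this
      exact ⟨hs0, this, by omega⟩
  · left
    have hspos : (0 : ℝ) < sn m ε := by
      have : 0 < sn m ε := Nat.pos_of_ne_zero hs0
      exact_mod_cast this
    rw [← hs] at h3
    have h4 : (q : ℝ) - 1 = (q' : ℝ) - 1 := mul_left_cancel₀ hspos.ne' h3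
    have h5 : (q : ℝ) = q' := by linarith
    have h6 : q = q' := by exact_mod_cast h5
    subst h6
    have h7 : m = m' := Nat.eq_of_mul_eq_mul_right (by omega) hprod
    exact ⟨h7, rfl⟩

end Pool.Agent.SpiralKnots
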