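import Mathlib

/-!
# Braid groups, Markov equivalence, spiral knots

Links are encoded by braids up to Markov equivalence.
-/

namespace Pool.Agent.SpiralKnots

/-- The relators of Artin's presentation of the braid group on `m + 1` strands, with generators
`σ_0, …, σ_{m-1}`. -/
inductive BraidRel (m : ℕ) : FreeGroup (Fin m) → Prop
  | braid (i j : Fin m) (h : i.val + 1 = j.val) :
      BraidRel m (FreeGroup.of i * FreeGroup.of j * FreeGroup.of i *
        (FreeGroup.of j * FreeGroup.of i * FreeGroup.of j)⁻¹)
  | far (i j : Fin m) (h : i.val + 1 < j.val) :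
      BraidRel m (FreeGroup.of i * FreeGroup.of j * (FreeGroup.of j * FreeGroup.of i)⁻¹)

/-- The braid group on `m + 1` strands (Artin's presentation). -/
abbrev Braid (m : ℕ) : Type := PresentedGroup {g : FreeGroup (Fin m) | BraidRel m g}

/-- The standard generator `σ_i`. -/
def sg {m : ℕ} (i : Fin m) : Braid m := PresentedGroup.of i

lemma lift_rel {m : ℕ} {G : Type*} [Group G] (f : Fin m → G)
    (h1 : ∀ i j : Fin m, i.val + 1 = j.val → f i * f j * f i = f j * f i * f j)
    (h2 : ∀ i j : Fin m, i.val + 1 < j.val → f i * f j = f j * f i) :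
    ∀ g ∈ {g : FreeGroup (Fin m) | BraidRel m g}, FreeGroup.lift f g = 1 := by
  rintro g hg
  cases hg with
  | braid i j h =>
    simp only [map_mul, map_inv, FreeGroup.lift_apply_of]
    rw [h1 i j h, mul_inv_cancel]
  | far i j h =>
    simp only [map_mul, map_inv, FreeGroup.lift_apply_of]
    rw [h2 i j h, mul_inv_cancel]

/-- homomorphisms out of the braid group -/
def braidLift {m : ℕ} {G : Type*} [Group G] (f : Fin m → G)
    (h1 : ∀ i j : Fin m, i.val + 1 = j.val → f i * f j * f i = f j * f i * f j)
    (h2 : ∀ i j : Fin m, i.val + 1 < j.val → f i * f j = f j * f i) : Braid m →* G :=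
  PresentedGroup.toGroup (lift_rel f h1 h2)

@[simp] lemma braidLift_sg {m : ℕ} {G : Type*} [Group G] (f : Fin m → G) (h1) (h2) (i : Fin m) :
    braidLift f h1 h2 (sg i) = f i := PresentedGroup.toGroup.of _

lemma sg_braid {m : ℕ} (i j : Fin m) (h : i.val + 1 = j.val) :
    (sg i : Braid m) * sg j * sg i = sg j * sg i * sg j := by
  have : (PresentedGroup.mk {g : FreeGroup (Fin m) | BraidRel m g})
      (FreeGroup.of i * FreeGroup.of j * FreeGroup.of i *
        (FreeGroup.of j * FreeGroup.of i * FreeGroup.of j)⁻¹) = 1 :=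
    PresentedGroup.one_of_mem (BraidRel.braid i j h)
  simp only [map_mul, map_inv] at this
  exact mul_inv_eq_one.mp this

lemma sg_far {m : ℕ} (i j : Fin m) (h : i.val + 1 < j.val) :
    (sg i : Braid m) * sg j = sg j * sg i := by
  have : (PresentedGroup.mk {g : FreeGroup (Fin m) | BraidRel m g})
      (FreeGroup.of i * FreeGroup.of j * (FreeGroup.of j * FreeGroup.of i)⁻¹) = 1 :=
    PresentedGroup.one_of_mem (BraidRel.far i j h)
  simp only [map_mul, map_inv] at this
  exact mul_inv_eq_one.mp this

/-- Adding one trivial strand: `σ_i ↦ σ_i`. -/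
def incl (m : ℕ) : Braid m →* Braid (m + 1) :=
  braidLift (fun i => sg i.castSucc) (fun i j h => sg_braid _ _ (by simpa using h))
    (fun i j h => sg_far _ _ (by simpa using h))

/-- Mirror image: `σ_i ↦ σ_i⁻¹`. -/
def mirror (m : ℕ) : Braid m →* Braid m :=
  braidLift (fun i => (sg i)⁻¹)
    (fun i j h => by
      have := sg_braid i j h
      have h2 : ((sg i : Braid m) * sg j * sg i)⁻¹ = (sg j * sg i * sg j)⁻¹ := by rw [this]
      simpa [mul_assoc] using h2)
    (fun i j h => by
      have := sg_far i j h
      have h2 : ((sg i : Braid m) * sg j)⁻¹ = (sg j * sg i)⁻¹ := by rw [this]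
      simpa using h2.symm)

/-- Reading a braid backwards (the anti-automorphism `σ_i ↦ σ_i`); it reverses the orientation
of the closure. -/
def reverse (m : ℕ) : Braid m →* (Braid m)ᵐᵒᵖ :=
  braidLift (fun i => MulOpposite.op (sg i))
    (fun i j h => by
      simp only [← MulOpposite.op_mul]
      congr 1
      have := sg_braid i j h
      simpa [mul_assoc] using this)
    (fun i j h => by
      simp only [← MulOpposite.op_mul]
      congr 1
      exact (sg_far i j h).symm)

/-- A braid with any number of strands: `⟨m, β⟩` is a braid on `m + 1` strands. -/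
abbrev AnyBraid : Type := Σ m : ℕ, Braid m

/-- The Markov moves. -/
inductive MarkovMove : AnyBraid → AnyBraid → Prop
  | conj (m : ℕ) (α β : Braid m) : MarkovMove ⟨m, β⟩ ⟨m, α * β * α⁻¹⟩
  | stabPos (m : ℕ) (β : Braid m) :
      MarkovMove ⟨m, β⟩ ⟨m + 1, incl m β * sg (Fin.last m)⟩
  | stabNeg (m : ℕ) (β : Braid m) :
      MarkovMove ⟨m, β⟩ ⟨m + 1, incl m β * (sg (Fin.last m))⁻¹⟩

/-- Markov equivalence: the equivalence relation generated by the Markov moves.  By Markov's
theorem it holds exactly when the closures are isotopic as oriented links in the 3-sphere. -/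
def SameClosure (x y : AnyBraid) : Prop := Relation.EqvGen MarkovMove x y

/-- the mirror image of a closed braid -/
def mirrorOf (x : AnyBraid) : AnyBraid := ⟨x.1, mirror x.1 x.2⟩

/-- the closed braid with the opposite orientation -/
def reverseOf (x : AnyBraid) : AnyBraid := ⟨x.1, (reverse x.1 x.2).unop⟩

/-- The closures are equal up to isotopy, orientation of the knot and mirror image. -/
def SameKnot (x y : AnyBraid) : Prop :=
  SameClosure x y ∨ SameClosure x (mirrorOf y) ∨ SameClosure x (reverseOf y) ∨
    SameClosure x (mirrorOf (reverseOf y))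

/-- The braid `(σ_1^{ε_1} ⋯ σ_{p-1}^{ε_{p-1}})^q` on `p` strands, whose closure is the spiral
knot `S(p, q, ε)`. -/
def spiral (p q : ℕ) (ε : Fin (p - 1) → ℤˣ) : AnyBraid :=
  ⟨p - 1, (List.ofFn fun i => (sg i : Braid (p - 1)) ^ (ε i : ℤ)).prod ^ q⟩

/-- The closure of `x` is a torus knot (up to mirror image). -/
def IsTorusKnot (x : AnyBraid) : Prop :=
  ∃ a b : ℕ, 2 ≤ a ∧ 2 ≤ b ∧ a.Coprime b ∧ SameKnot x (spiral a b fun _ => 1)

/-- induction principle for properties closed under products -/
lemma braid_induction {m : ℕ} {P : Braid m → Prop} (h1 : P 1)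
    (hmul : ∀ x y, P x → P y → P (x * y)) (hinv : ∀ x, P x → P x⁻¹)
    (hg : ∀ i, P (sg i)) (x : Braid m) : P x := by
  let S : Subgroup (Braid m) :=
    { carrier := {x | P x}, mul_mem' := fun {a b} ha hb => hmul a b ha hb, one_mem' := h1,
      inv_mem' := fun {a} ha => hinv a ha }
  have hS : Subgroup.closure (Set.range (PresentedGroup.of :
      Fin m → Braid m)) ≤ S := by
    rw [Subgroup.closure_le]
    rintro _ ⟨i, rfl⟩
    exact hg i
  have : x ∈ Subgroup.closure (Set.range (PresentedGroup.of : Fin m → Braid m)) := by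
    rw [PresentedGroup.closure_range_of]; trivial
  exact hS this

lemma hom_ext {m : ℕ} {G : Type*} [Group G] {f g : Braid m →* G}
    (h : ∀ i, f (sg i) = g (sg i)) : f = g :=
  PresentedGroup.ext (fun i => h i)

end Pool.Agent.SpiralKnots
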