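import Pool.Agent.SpiralKnots.Rep

/-!
# Traces of words in the normalised generators
-/

namespace Pool.Agent.SpiralKnots

section ringlemmas

variable {A : Type*} [Ring A] [Algebra ℝ A] {u v : A} {h : ℝ}

lemma bar_sq (hu : u * u = u + h • 1) : (1 - u) * (1 - u) = (1 - u) + h • 1 := by
  have e : (1 - u) * (1 - u) = 1 - u - u + u * u := by noncomm_ring
  rw [e, hu]; abel

lemma bar_braid (hu : u * u = u + h • 1) (hv : v * v = v + h • 1) (hb : u * v * u = v * u * v) :
    (1 - u) * (1 - v) * (1 - u) = (1 - v) * (1 - u) * (1 - v) := by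
  have e1 : (1 - u) * (1 - v) * (1 - u)
    = 1 - u - u - v + u * u + u * v + v * u - u * v * u := by noncomm_ring
  have e2 : (1 - v) * (1 - u) * (1 - v)
    = 1 - v - v - u + v * v + v * u + u * v - v * u * v := by noncomm_ring
  rw [e1, e2, hu, hv, hb]; abel

lemma mixed_braid (hu : u * u = u + h • 1) (hb : u * v * u = v * u * v) :
    (1 - v) * u * (1 - v) + u * (1 - v) * u = u * (1 - v) + (1 - v) * u + h • 1 := by
  have e1 : (1 - v) * u * (1 - v) = u - u * v - v * u + v * u * v := by noncomm_ring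
  have e2 : u * (1 - v) * u = u * u - u * v * u := by noncomm_ring
  have e3 : u * (1 - v) + (1 - v) * u = u + u - u * v - v * u := by noncomm_ring
  rw [e1, e2, e3, hu, hb]; abel

lemma mixed_braid' (hv : v * v = v + h • 1) (hb : u * v * u = v * u * v) :
    v * (1 - u) * v + (1 - u) * v * (1 - u) = (1 - u) * v + v * (1 - u) + h • 1 := by
  have e1 : (1 - u) * v * (1 - u) = v - u * v - v * u + u * v * u := by noncomm_ring
  have e2 : v * (1 - u) * v = v * v - v * u * v := by noncomm_ring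
  have e3 : (1 - u) * v + v * (1 - u) = v + v - u * v - v * u := by noncomm_ring
  rw [e1, e2, e3, hv, hb]; abel

end ringlemmas

namespace RData

variable (P : RData) (ε : ℕ → Bool)

/-- the normalised generator -/
noncomputable def uop (m k : ℕ) : Op (St P.N (m + 1)) := P.z⁻¹ • P.G m k

/-- the normalised signed generator -/
noncomputable def xop (m k : ℕ) : Op (St P.N (m + 1)) :=
  if ε k then P.uop m k else 1 - P.uop m k

/-- product along a word -/
noncomputable def xw (m : ℕ) (w : List ℕ) : Op (St P.N (m + 1)) := (w.map (P.xop ε m)).prod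

/-- normalised trace on `m + 1` strands -/
noncomputable def tw (m : ℕ) (w : List ℕ) : ℝ := P.T m (P.xw ε m w) / P.D ^ (m + 1)

/-- normalised trace -/
noncomputable def t (w : List ℕ) : ℝ := P.tw ε (w.sum + 1) w

/-- the quadratic parameter -/
noncomputable def hpar : ℝ := (P.z⁻¹) ^ 2

/-- the Markov parameter -/
noncomputable def cpar : ℝ := P.K / (P.K - P.K⁻¹)

lemma u_sq {m i : ℕ} (hi : i < m) : P.uop m i * P.uop m i = P.uop m i + P.hpar • 1 := by
  unfold uop hpar
  rw [smul_mul_smul_comm, G_sq P m i hi, smul_add, smul_smul, mul_assoc,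
    inv_mul_cancel₀ P.hz, mul_one, sq]

lemma u_far {m i j : ℕ} (hij : i + 1 < j) (hj : j < m) :
    P.uop m i * P.uop m j = P.uop m j * P.uop m i := by
  unfold uop
  rw [smul_mul_smul_comm, smul_mul_smul_comm, G_far P m i j hij hj]

lemma u_braid {m i : ℕ} (hi : i + 1 < m) :
    P.uop m i * P.uop m (i + 1) * P.uop m i = P.uop m (i + 1) * P.uop m i * P.uop m (i + 1) := by
  unfold uop
  rw [smul_mul_smul_comm, smul_mul_smul_comm, smul_mul_smul_comm, smul_mul_smul_comm,
    G_braid P m i hi]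

lemma x_sq {m i : ℕ} (hi : i < m) : P.xop ε m i * P.xop ε m i = P.xop ε m i + P.hpar • 1 := by
  unfold xop
  split_ifs
  · exact P.u_sq hi
  · exact bar_sq (P.u_sq hi)

lemma x_far {m i j : ℕ} (hij : i + 1 < j) (hj : j < m) :
    P.xop ε m i * P.xop ε m j = P.xop ε m j * P.xop ε m i := by
  have h : Commute (P.uop m i) (P.uop m j) := P.u_far hij hj
  unfold xop
  split_ifs
  · exact h
  · exact ((Commute.one_right _).sub_right h)
  · exact ((Commute.one_left _).sub_left h)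
  · exact ((Commute.one_left _).sub_left ((Commute.one_right _).sub_right h))

lemma x_same {m i : ℕ} (hi : i + 1 < m) (hs : ε i = ε (i + 1)) :
    P.xop ε m (i + 1) * P.xop ε m i * P.xop ε m (i + 1)
      = P.xop ε m i * P.xop ε m (i + 1) * P.xop ε m i := by
  have hb := P.u_braid hi
  unfold xop
  rw [← hs]
  split_ifs
  · exact hb.symm
  · exact (bar_braid (P.u_sq (by omega)) (P.u_sq hi) hb).symm

lemma x_diff {m i : ℕ} (hi : i + 1 < m) (hs : ε i ≠ ε (i + 1)) :
    P.xop ε m (i + 1) * P.xop ε m i * P.xop ε m (i + 1)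
      + P.xop ε m i * P.xop ε m (i + 1) * P.xop ε m i
      = P.xop ε m i * P.xop ε m (i + 1) + P.xop ε m (i + 1) * P.xop ε m i + P.hpar • 1 := by
  have hb := P.u_braid hi
  have hu := P.u_sq (show i < m by omega)
  have hv := P.u_sq hi
  unfold xop
  cases h1 : ε i <;> cases h2 : ε (i + 1)
  · exact absurd (h1.trans h2.symm) hs
  · simp only [if_true, Bool.false_eq_true, if_false]
    exact mixed_braid' hv hb
  · simp only [if_true, Bool.false_eq_true, if_false]
    exact mixed_braid hu hb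
  · exact absurd (h1.trans h2.symm) hs

lemma W_x (m i : ℕ) : Commute (opW (P.wt (m + 1))) (P.xop ε m i) := by
  unfold xop uop
  split_ifs
  · exact (P.W_G m i).smul_right _
  · exact (Commute.one_right _).sub_right ((P.W_G m i).smul_right _)

lemma W_xw (m : ℕ) (w : List ℕ) : Commute (opW (P.wt (m + 1))) (P.xw ε m w) := by
  unfold xw
  apply Commute.list_prod_right
  intro x hx
  obtain ⟨k, _, rfl⟩ := List.mem_map.mp hx
  exact P.W_x ε m k

lemma xw_append (m : ℕ) (w₁ w₂ : List ℕ) :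
    P.xw ε m (w₁ ++ w₂) = P.xw ε m w₁ * P.xw ε m w₂ := by
  simp [xw]

lemma xw_cons (m k : ℕ) (w : List ℕ) : P.xw ε m (k :: w) = P.xop ε m k * P.xw ε m w := by
  simp [xw]

lemma xop_ext {m k : ℕ} (h : k ≠ m) : P.xop ε (m + 1) k = P.ex (P.xop ε m k) := by
  unfold xop uop
  rw [G_ext P h]
  split_ifs <;> rfl

lemma xw_ext {m : ℕ} {w : List ℕ} (h : ∀ k ∈ w, k < m) :
    P.xw ε (m + 1) w = P.ex (P.xw ε m w) := by
  induction w with
  | nil => rfl
  | cons k w ih =>
    rw [xw_cons, xw_cons, xop_ext P ε (by have := h k (by simp); omega),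
      ih (fun i hi => h i (by simp [hi])), ex_mul]

lemma tw_succ {m : ℕ} {w : List ℕ} (h : ∀ k ∈ w, k < m) : P.tw ε (m + 1) w = P.tw ε m w := by
  unfold tw
  rw [xw_ext P ε h, T_ext]
  have := P.D_ne
  field_simp
  ring

lemma tw_le {m m' : ℕ} (hm : m ≤ m') {w : List ℕ} (h : ∀ k ∈ w, k < m) :
    P.tw ε m' w = P.tw ε m w := by
  induction m', hm using Nat.le_induction with
  | base => rfl
  | succ n hn ih => rw [tw_succ P ε (fun k hk => lt_of_lt_of_le (h k hk) hn), ih]

lemma t_eq {m : ℕ} {w : List ℕ} (h : ∀ k ∈ w, k < m) : P.t ε w = P.tw ε m w := by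
  have h' : ∀ k ∈ w, k < w.sum + 1 :=
    fun i hi => Nat.lt_succ_of_le (List.single_le_sum (by simp) i hi)
  rw [t, ← tw_le P ε (le_max_left (w.sum + 1) m) h', tw_le P ε (le_max_right (w.sum + 1) m) h]

lemma lt_bound {w : List ℕ} : ∀ k ∈ w, k < w.sum + 1 :=
  fun i hi => Nat.lt_succ_of_le (List.single_le_sum (by simp) i hi)

lemma t_nil : P.t ε [] = 1 := by
  rw [P.t_eq ε (m := 0) (by simp), tw]
  have : P.xw ε 0 [] = 1 := rfl
  rw [this, T_one]
  exact div_self (pow_ne_zero _ P.D_ne)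

lemma t_rot (w₁ w₂ : List ℕ) : P.t ε (w₁ ++ w₂) = P.t ε (w₂ ++ w₁) := by
  have h1 : ∀ k ∈ w₁ ++ w₂, k < (w₁ ++ w₂).sum + 1 := lt_bound
  have h2 : ∀ k ∈ w₂ ++ w₁, k < (w₁ ++ w₂).sum + 1 := fun k hk => h1 k (by
    simp only [List.mem_append] at hk ⊢; tauto)
  rw [P.t_eq ε h1, P.t_eq ε h2, tw, tw, xw_append, xw_append,
    P.T_comm _ (P.W_xw ε _ w₂)]

/-- generic transfer of a linear relation -/
lemma t_sq (k : ℕ) (w : List ℕ) :
    P.t ε (k :: k :: w) = P.t ε (k :: w) + P.hpar * P.t ε w := by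
  have h1 : ∀ i ∈ k :: k :: w, i < (k :: k :: w).sum + 1 := lt_bound
  set m := (k :: k :: w).sum + 1
  have h2 : ∀ i ∈ k :: w, i < m := fun i hi => h1 i (by simp at hi ⊢; tauto)
  have h3 : ∀ i ∈ w, i < m := fun i hi => h1 i (by simp [hi])
  rw [P.t_eq ε h1, P.t_eq ε h2, P.t_eq ε h3]
  unfold tw
  rw [xw_cons, xw_cons, ← mul_assoc, x_sq P ε (h1 k (by simp)), add_mul, T_add,
    smul_mul_assoc, one_mul, T_smul]
  ring

lemma t_far (a b : ℕ) (w : List ℕ) (hab : a + 1 < b) :
    P.t ε (a :: b :: w) = P.t ε (b :: a :: w) := by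
  have h1 : ∀ i ∈ a :: b :: w, i < (a :: b :: w).sum + 1 := lt_bound
  set m := (a :: b :: w).sum + 1
  have h2 : ∀ i ∈ b :: a :: w, i < m := fun i hi => h1 i (by simp at hi ⊢; tauto)
  rw [P.t_eq ε h1, P.t_eq ε h2]
  unfold tw
  rw [xw_cons, xw_cons, xw_cons, xw_cons, ← mul_assoc, x_far P ε hab (h1 b (by simp)), mul_assoc]

lemma t_same (a : ℕ) (w : List ℕ) (hs : ε a = ε (a + 1)) :
    P.t ε ((a + 1) :: a :: (a + 1) :: w) = P.t ε (a :: (a + 1) :: a :: w) := by
  have h1 : ∀ i ∈ (a + 1) :: a :: (a + 1) :: w, i < ((a + 1) :: a :: (a + 1) :: w).sum + 1 :=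
    lt_bound
  set m := ((a + 1) :: a :: (a + 1) :: w).sum + 1
  have h2 : ∀ i ∈ a :: (a + 1) :: a :: w, i < m := fun i hi => h1 i (by simp at hi ⊢; tauto)
  rw [P.t_eq ε h1, P.t_eq ε h2]
  unfold tw
  simp only [xw_cons]
  rw [← mul_assoc, ← mul_assoc, x_same P ε (h1 (a + 1) (by simp)) hs, mul_assoc, mul_assoc]

lemma t_diff (a : ℕ) (w : List ℕ) (hs : ε a ≠ ε (a + 1)) :
    P.t ε ((a + 1) :: a :: (a + 1) :: w) + P.t ε (a :: (a + 1) :: a :: w)
      = P.t ε (a :: (a + 1) :: w) + P.t ε ((a + 1) :: a :: w) + P.hpar * P.t ε w := by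
  have h1 : ∀ i ∈ (a + 1) :: a :: (a + 1) :: w, i < ((a + 1) :: a :: (a + 1) :: w).sum + 1 :=
    lt_bound
  set m := ((a + 1) :: a :: (a + 1) :: w).sum + 1
  have h2 : ∀ i ∈ a :: (a + 1) :: a :: w, i < m := fun i hi => h1 i (by simp at hi ⊢; tauto)
  have h3 : ∀ i ∈ a :: (a + 1) :: w, i < m := fun i hi => h1 i (by simp at hi ⊢; tauto)
  have h4 : ∀ i ∈ (a + 1) :: a :: w, i < m := fun i hi => h1 i (by simp at hi ⊢; tauto)
  have h5 : ∀ i ∈ w, i < m := fun i hi => h1 i (by simp at hi ⊢; tauto)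
  rw [P.t_eq ε h1, P.t_eq ε h2, P.t_eq ε h3, P.t_eq ε h4, P.t_eq ε h5]
  unfold tw
  have key := P.x_diff ε (h1 (a + 1) (by simp)) hs
  have key2 : P.xw ε m ((a + 1) :: a :: (a + 1) :: w) + P.xw ε m (a :: (a + 1) :: a :: w)
      = P.xw ε m (a :: (a + 1) :: w) + P.xw ε m ((a + 1) :: a :: w)
        + P.hpar • P.xw ε m w := by
    have := congrArg (fun y => y * P.xw ε m w) key
    simp only [add_mul, smul_mul_assoc, one_mul, mul_assoc] at this
    simp only [xw_cons]
    exact this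
  have key3 := congrArg (P.T m) key2
  rw [T_add, T_add, T_add, T_smul] at key3
  rw [← add_div, key3]
  ring

lemma t_markov (k : ℕ) (w : List ℕ) (hw : ∀ a ∈ w, a < k) :
    P.t ε (k :: w) = kap P.cpar ε k * P.t ε w := by
  have h1 : ∀ i ∈ k :: w, i < k + 1 := by
    intro i hi
    simp only [List.mem_cons] at hi
    rcases hi with h | h
    · omega
    · have := hw i h; omega
  rw [P.t_eq ε h1, P.t_eq ε hw]
  unfold tw
  rw [xw_cons, ← P.T_comm (k + 1) (P.W_x ε (k + 1) k), xw_ext P ε hw]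
  have hz := P.hz
  have hD := P.D_ne
  have hzD : P.z * P.D = P.K - P.K⁻¹ := P.hD
  have hK1 := P.hK1
  unfold xop uop kap cpar
  split_ifs
  · rw [mul_smul_comm, T_smul, T_ext_G, ← hzD]
    field_simp
    ring
  · rw [mul_sub, mul_one, mul_smul_comm, T_sub, T_smul, T_ext, T_ext_G, ← hzD]
    field_simp
    ring

end RData

theorem traceFamily {ι : Type*} (P : ι → RData) (c : ℝ) (hc : ∀ i, (P i).cpar = c)
    (ε : ℕ → Bool) :
    TraceFamily c ε (fun i => (P i).hpar) (fun i => (P i).t ε) where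
  nil i := (P i).t_nil ε
  rot i := (P i).t_rot ε
  sq i := (P i).t_sq ε
  far i := (P i).t_far ε
  same i := (P i).t_same ε
  diff i := (P i).t_diff ε
  markov i k w hw := by rw [← hc i]; exact (P i).t_markov ε k w hw

end Pool.Agent.SpiralKnots
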