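import Pool.Agent.SpiralKnots.Family

/-!
# Numerical R-matrix data: the quantum `sl_N` family with a fixed value of `v = a^{-N}`
-/

namespace Pool.Agent.SpiralKnots

/-- telescoping sum of the quantum weights -/
lemma weight_sum {a : ℝ} (ha : a ≠ 0) (M : ℤ) (i : ℕ) :
    (a - a⁻¹) * ∑ j ∈ Finset.range i, a ^ (M - 1 - 2 * (j : ℤ)) = a ^ M - a ^ (M - 2 * (i : ℤ)) := by
  induction i with
  | zero => simp
  | succ i ih =>
    rw [Finset.sum_range_succ, mul_add, ih]
    have e1 : a ^ (M - 2 * (i : ℤ)) = a * a ^ (M - 1 - 2 * (i : ℤ)) := by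
      rw [← zpow_one_add₀ ha]; congr 1; ring
    have e2 : a⁻¹ * a ^ (M - 1 - 2 * (i : ℤ)) = a ^ (M - 2 * ((i + 1 : ℕ) : ℤ)) := by
      rw [← zpow_neg_one, ← zpow_add₀ ha]; congr 1; push_cast; ring
    rw [sub_mul, e2, e1]; ring

/-- quantum weights -/
noncomputable def qwt (a : ℝ) (N : ℕ) (j : Fin N) : ℝ := a ^ ((N : ℤ) - 1 - 2 * (j.val : ℤ))

lemma qwt_sum {a : ℝ} (ha : a ≠ 0) (N : ℕ) :
    (a - a⁻¹) * ∑ j, qwt a N j = a ^ N - (a ^ N)⁻¹ := by
  have h := weight_sum ha (N : ℤ) N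
  have h2 : ∑ j, qwt a N j = ∑ j ∈ Finset.range N, a ^ ((N : ℤ) - 1 - 2 * (j : ℤ)) := by
    rw [← Fin.sum_univ_eq_sum_range (fun j => a ^ ((N : ℤ) - 1 - 2 * (j : ℤ)))]
    rfl
  rw [h2, h, zpow_natCast]
  congr 1
  have : (N : ℤ) - 2 * (N : ℤ) = -(N : ℤ) := by ring
  rw [this, zpow_neg, zpow_natCast]

lemma qwt_rdiag {a : ℝ} (ha : a ≠ 0) (N : ℕ) (i : Fin N) :
    ∑ j, qwt a N j * rdiag a (a - a⁻¹) i j = a ^ N := by
  have h2 : ∑ j, qwt a N j * rdiag a (a - a⁻¹) i j
      = ∑ j ∈ Finset.range N, a ^ ((N : ℤ) - 1 - 2 * (j : ℤ)) *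
        (if i.val = j then a else if i.val < j then 0 else (a - a⁻¹)) := by
    rw [← Fin.sum_univ_eq_sum_range (fun j => a ^ ((N : ℤ) - 1 - 2 * (j : ℤ)) *
        (if i.val = j then a else if i.val < j then 0 else (a - a⁻¹)))]
    apply Finset.sum_congr rfl
    intro j _
    unfold qwt rdiag
    congr 1
    simp only [Fin.ext_iff, Fin.lt_def]
  rw [h2]
  have hi := i.2
  have hsub : Finset.range (i.val + 1) ⊆ Finset.range N := by
    apply Finset.range_subset_range.mpr; omega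
  rw [← Finset.sum_subset hsub]
  · rw [Finset.sum_range_succ]
    have h3 : ∑ j ∈ Finset.range i.val, a ^ ((N : ℤ) - 1 - 2 * (j : ℤ)) *
        (if i.val = j then a else if i.val < j then 0 else (a - a⁻¹))
        = (a - a⁻¹) * ∑ j ∈ Finset.range i.val, a ^ ((N : ℤ) - 1 - 2 * (j : ℤ)) := by
      rw [Finset.mul_sum]
      apply Finset.sum_congr rfl
      intro j hj
      have hj' := Finset.mem_range.mp hj
      rw [if_neg (by omega), if_neg (by omega)]; ring
    rw [h3, weight_sum ha]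
    simp only [if_true]
    have e1 : a ^ ((N : ℤ) - 2 * (i.val : ℤ)) = a ^ ((N : ℤ) - 1 - 2 * (i.val : ℤ)) * a := by
      rw [← zpow_add_one₀ ha]; congr 1; ring
    rw [e1, zpow_natCast]; ring
  · intro j _ hj
    have : ¬ j < i.val + 1 := fun h => hj (Finset.mem_range.mpr h)
    rw [if_neg (by omega), if_pos (by omega), mul_zero]

/-- the R-matrix data for `a > 1` and `N ≥ 1` -/
noncomputable def qdata (a : ℝ) (ha : 1 < a) (N : ℕ) (hN : N ≠ 0) : RData where
  N := N
  a := a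
  z := a - a⁻¹
  μ := qwt a N
  K := a ^ N
  ha := by
    have : a ≠ 0 := by positivity
    field_simp
    ring
  hz := by
    have h0 : 0 < a := by positivity
    have : a⁻¹ < 1 := inv_lt_one_of_one_lt₀ ha
    intro h; linarith
  hK0 := by positivity
  hK := qwt_rdiag (by positivity) N
  hD := qwt_sum (by positivity) N
  hK1 := by
    have h1 : 1 < a ^ N := one_lt_pow₀ ha hN
    have : (a ^ N)⁻¹ < 1 := inv_lt_one_of_one_lt₀ h1
    intro h; linarith

/-- For a given `K > 1` and every `n`, R-matrix data with that `K` and `N = n + 1`. -/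
lemma exists_root {K : ℝ} (hK : 1 < K) (n : ℕ) : ∃ a : ℝ, 1 < a ∧ a ^ (n + 1) = K := by
  refine ⟨K ^ ((1 : ℝ) / (n + 1)), ?_, ?_⟩
  · exact Real.one_lt_rpow hK (by positivity)
  · rw [← Real.rpow_natCast, ← Real.rpow_mul (by positivity)]
    push_cast
    rw [one_div, inv_mul_cancel₀ (by positivity), Real.rpow_one]

/-- a choice of root -/
noncomputable def rootOf {K : ℝ} (hK : 1 < K) (n : ℕ) : ℝ := (exists_root hK n).choose

lemma rootOf_gt {K : ℝ} (hK : 1 < K) (n : ℕ) : 1 < rootOf hK n := (exists_root hK n).choose_spec.1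

lemma rootOf_pow {K : ℝ} (hK : 1 < K) (n : ℕ) : rootOf hK n ^ (n + 1) = K :=
  (exists_root hK n).choose_spec.2

lemma rootOf_anti {K : ℝ} (hK : 1 < K) {n m : ℕ} (h : n < m) : rootOf hK m < rootOf hK n := by
  by_contra hc
  push Not at hc
  have h1 := rootOf_gt hK n
  have h2 := rootOf_gt hK m
  have h3 : rootOf hK n ^ (n + 1) ≤ rootOf hK m ^ (n + 1) :=
    pow_le_pow_left₀ (by linarith) hc _
  have h4 : rootOf hK m ^ (n + 1) < rootOf hK m ^ (m + 1) := pow_lt_pow_right₀ h2 (by omega)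
  rw [rootOf_pow] at h3 h4
  linarith

/-- the family of data -/
noncomputable def fam {K : ℝ} (hK : 1 < K) (n : ℕ) : RData :=
  qdata (rootOf hK n) (rootOf_gt hK n) (n + 1) (by omega)

lemma fam_K {K : ℝ} (hK : 1 < K) (n : ℕ) : (fam hK n).K = K := rootOf_pow hK n

lemma fam_z {K : ℝ} (hK : 1 < K) (n : ℕ) : (fam hK n).z = rootOf hK n - (rootOf hK n)⁻¹ := rfl

lemma fam_z_pos {K : ℝ} (hK : 1 < K) (n : ℕ) : 0 < (fam hK n).z := by
  rw [fam_z]
  have h := rootOf_gt hK n
  have : (rootOf hK n)⁻¹ < 1 := inv_lt_one_of_one_lt₀ h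
  linarith

lemma fam_h_inj {K : ℝ} (hK : 1 < K) : Function.Injective (fun n => (fam hK n).hpar) := by
  have key : ∀ n m : ℕ, n < m → (fam hK n).hpar < (fam hK m).hpar := by
    intro n m h
    have h1 := rootOf_anti hK h
    have h2 := rootOf_gt hK m
    have h3 := rootOf_gt hK n
    have hz : (fam hK m).z < (fam hK n).z := by
      rw [fam_z, fam_z]
      have : (rootOf hK n)⁻¹ < (rootOf hK m)⁻¹ := inv_strictAnti₀ (by linarith) h1
      linarith
    have hzm := fam_z_pos hK m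
    have hzn := fam_z_pos hK n
    unfold RData.hpar
    have h5 : ((fam hK n).z)⁻¹ < ((fam hK m).z)⁻¹ := inv_strictAnti₀ hzm hz
    exact pow_lt_pow_left₀ h5 (by positivity) (by norm_num)
  intro n m h
  simp only at h
  rcases lt_trichotomy n m with h1 | h1 | h1
  · have := key n m h1; linarith
  · exact h1
  · have := key m n h1; linarith

end Pool.Agent.SpiralKnots
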