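import Mathlib

/-!
# The Hecke R-matrix on functions and its partial traces
-/

set_option linter.unusedSectionVars false
set_option linter.unusedSimpArgs false

namespace Pool.Agent.SpiralKnots

/-- operators on functions on a set of states -/
abbrev Op (r : Type) := Module.End ℝ (r → ℝ)

variable {r : Type} {N : ℕ}

/-- add one more strand on which the operator acts trivially -/
def opExt (N : ℕ) (A : Op r) : Op (r × Fin N) where
  toFun ψ := fun s => A (fun s' => ψ (s', s.2)) s.1
  map_add' ψ φ := by
    funext s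
    have : (fun s' => (ψ + φ) (s', s.2)) = (fun s' => ψ (s', s.2)) + (fun s' => φ (s', s.2)) := rfl
    rw [this, map_add]; rfl
  map_smul' c ψ := by
    funext s
    have : (fun s' => (c • ψ) (s', s.2)) = c • (fun s' => ψ (s', s.2)) := rfl
    rw [this, map_smul]; rfl

lemma opExt_apply (A : Op r) (ψ : r × Fin N → ℝ) (s : r) (k : Fin N) :
    opExt N A ψ (s, k) = A (fun s' => ψ (s', k)) s := rfl

lemma opExt_mul (A B : Op r) : opExt N (A * B) = opExt N A * opExt N B := rfl

lemma opExt_one : opExt N (1 : Op r) = 1 := rfl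

lemma opExt_add (A B : Op r) : opExt N (A + B) = opExt N A + opExt N B := rfl

lemma opExt_sub (A B : Op r) : opExt N (A - B) = opExt N A - opExt N B := rfl

lemma opExt_smul (c : ℝ) (A : Op r) : opExt N (c • A) = c • opExt N A := rfl

/-- the R-matrix acting on the last two strands -/
def opR (r : Type) (N : ℕ) (a z : ℝ) : Op ((r × Fin N) × Fin N) where
  toFun ψ := fun s =>
    if s.1.2 = s.2 then a * ψ s
    else if s.1.2 < s.2 then ψ ((s.1.1, s.2), s.1.2)
    else ψ ((s.1.1, s.2), s.1.2) + z * ψ s
  map_add' ψ φ := by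
    funext s
    simp only [Pi.add_apply]
    split_ifs <;> ring
  map_smul' c ψ := by
    funext s
    simp only [Pi.smul_apply, smul_eq_mul, RingHom.id_apply]
    split_ifs <;> ring

lemma opR_apply (a z : ℝ) (ψ : (r × Fin N) × Fin N → ℝ) (s : r) (i j : Fin N) :
    opR r N a z ψ ((s, i), j) = if i = j then a * ψ ((s, i), j)
      else if i < j then ψ ((s, j), i) else ψ ((s, j), i) + z * ψ ((s, i), j) := rfl

lemma opR_sq {a z : ℝ} (ha : a * a = z * a + 1) :
    opR r N a z * opR r N a z = z • opR r N a z + 1 := by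
  apply LinearMap.ext
  intro ψ
  funext ⟨⟨s, i⟩, j⟩
  simp only [Module.End.mul_apply, LinearMap.add_apply, LinearMap.smul_apply, Pi.add_apply,
    Pi.smul_apply, smul_eq_mul, Module.End.one_apply]
  rw [opR_apply, opR_apply, opR_apply]
  rcases lt_trichotomy i j with h | h | h
  · have h1 : i ≠ j := ne_of_lt h
    have h2 : ¬ j < i := not_lt_of_gt h
    simp [h1, h1.symm, h, h2]; ring
  · subst h
    simp
    linear_combination ψ ((s, i), i) * ha
  · have h1 : i ≠ j := ne_of_gt h
    have h2 : ¬ i < j := not_lt_of_gt h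
    simp [h1, h1.symm, h, h2]; ring

lemma opR_comm (A : Op r) (a z : ℝ) :
    opExt N (opExt N A) * opR r N a z = opR r N a z * opExt N (opExt N A) := by
  apply LinearMap.ext
  intro ψ
  funext ⟨⟨s, i⟩, j⟩
  simp only [Module.End.mul_apply]
  rw [opR_apply, opExt_apply, opExt_apply, opExt_apply, opExt_apply]
  simp only [opExt_apply, opR_apply]
  split_ifs with h1 h2
  · have : (fun s' => a * ψ ((s', i), j)) = a • (fun s' => ψ ((s', i), j)) := rfl
    rw [this, map_smul]; rfl
  · rfl
  · have : (fun s' => ψ ((s', j), i) + z * ψ ((s', i), j))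
      = (fun s' => ψ ((s', j), i)) + z • (fun s' => ψ ((s', i), j)) := rfl
    rw [this, map_add, map_smul]; rfl

lemma opR_braid {a z : ℝ} (ha : a * a = z * a + 1) :
    opExt N (opR r N a z) * opR (r × Fin N) N a z * opExt N (opR r N a z)
      = opR (r × Fin N) N a z * opExt N (opR r N a z) * opR (r × Fin N) N a z := by
  apply LinearMap.ext
  intro ψ
  funext ⟨⟨⟨s, i⟩, j⟩, k⟩
  simp only [Module.End.mul_apply]
  simp only [opExt_apply, opR_apply]
  rcases lt_trichotomy i j with hij | hij | hij <;>
  rcases lt_trichotomy j k with hjk | hjk | hjk <;>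
  rcases lt_trichotomy i k with hik | hik | hik
  all_goals first
    | (exfalso; omega)
    | skip
  all_goals
    try subst hij
    try subst hjk
    try subst hik
    simp [*, ne_of_lt, ne_of_gt, not_lt_of_gt]
  all_goals first
    | ring1
    | linear_combination z * ψ (((s, i), i), k) * ha
    | linear_combination (-z) * ψ (((s, i), j), j) * ha

/-! ## Weighted traces -/

section trace

variable [Fintype r] [DecidableEq r]

/-- multiplication by a weight -/
def opW (wt : r → ℝ) : Op r where
  toFun ψ := fun s => wt s * ψ s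
  map_add' ψ φ := by funext s; simp only [Pi.add_apply]; ring
  map_smul' c ψ := by
    funext s; simp only [Pi.smul_apply, smul_eq_mul, RingHom.id_apply]; ring

/-- weighted trace -/
noncomputable def tr (wt : r → ℝ) (A : Op r) : ℝ := ∑ s, wt s * A (Pi.single s 1) s

omit [Fintype r] in
lemma tr_add [Fintype r] (wt : r → ℝ) (A B : Op r) : tr wt (A + B) = tr wt A + tr wt B := by
  unfold tr
  rw [← Finset.sum_add_distrib]
  exact Finset.sum_congr rfl (fun s _ => by simp; ring)

lemma tr_sub (wt : r → ℝ) (A B : Op r) : tr wt (A - B) = tr wt A - tr wt B := by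
  unfold tr
  rw [← Finset.sum_sub_distrib]
  exact Finset.sum_congr rfl (fun s _ => by simp; ring)

lemma tr_smul (wt : r → ℝ) (c : ℝ) (A : Op r) : tr wt (c • A) = c * tr wt A := by
  unfold tr
  rw [Finset.mul_sum]
  exact Finset.sum_congr rfl (fun s _ => by simp; ring)

lemma tr_eq_trace (wt : r → ℝ) (A : Op r) : tr wt A = LinearMap.trace ℝ _ (opW wt * A) := by
  rw [LinearMap.trace_eq_matrix_trace ℝ (Pi.basisFun ℝ r)]
  unfold tr Matrix.trace
  apply Finset.sum_congr rfl
  intro s _
  simp [Matrix.diag, LinearMap.toMatrix_apply, opW, Pi.single_apply]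

lemma tr_mul_comm {wt : r → ℝ} {A B : Op r} (h : Commute (opW wt) B) :
    tr wt (A * B) = tr wt (B * A) := by
  rw [tr_eq_trace, tr_eq_trace, ← mul_assoc, LinearMap.trace_mul_comm, ← mul_assoc,
    ← mul_assoc, h.eq]

/-- weight on one more strand -/
def wtExt (wt : r → ℝ) (μ : Fin N → ℝ) : r × Fin N → ℝ := fun s => wt s.1 * μ s.2

lemma opW_ext_comm {wt : r → ℝ} (μ : Fin N → ℝ) {A : Op r} (h : Commute (opW wt) A) :
    Commute (opW (wtExt wt μ)) (opExt N A) := by
  unfold Commute SemiconjBy
  apply LinearMap.ext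
  intro ψ
  funext ⟨s, k⟩
  have h1 : opW wt * A = A * opW wt := h
  simp only [Module.End.mul_apply, opExt_apply]
  show wt s * μ k * A (fun s' => ψ (s', k)) s = A (fun s' => wt s' * μ k * ψ (s', k)) s
  have h2 : (fun s' => wt s' * μ k * ψ (s', k)) = μ k • opW wt (fun s' => ψ (s', k)) := by
    funext s'
    simp only [opW, LinearMap.coe_mk, AddHom.coe_mk, Pi.smul_apply, smul_eq_mul]
    ring
  rw [h2, map_smul]
  have h3 : A (opW wt (fun s' => ψ (s', k))) = opW wt (A (fun s' => ψ (s', k))) := by
    rw [← Module.End.mul_apply, ← h1]; rfl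
  rw [h3]
  simp only [opW, LinearMap.coe_mk, AddHom.coe_mk, Pi.smul_apply, smul_eq_mul]
  ring

lemma opW_R_comm (wt : r → ℝ) (μ : Fin N → ℝ) (a z : ℝ) :
    Commute (opW (wtExt (wtExt wt μ) μ)) (opR r N a z) := by
  unfold Commute SemiconjBy
  apply LinearMap.ext
  intro ψ
  funext ⟨⟨s, i⟩, j⟩
  simp only [Module.End.mul_apply]
  rw [opR_apply]
  simp only [opW, LinearMap.coe_mk, AddHom.coe_mk, wtExt]
  rw [opR_apply]
  split_ifs <;> ring

lemma tr_ext (wt : r → ℝ) (μ : Fin N → ℝ) (A : Op r) :
    tr (wtExt wt μ) (opExt N A) = (∑ j, μ j) * tr wt A := by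
  unfold tr
  rw [Fintype.sum_prod_type, Finset.mul_sum]
  apply Finset.sum_congr rfl
  intro s _
  rw [Finset.sum_mul]
  apply Finset.sum_congr rfl
  intro k _
  rw [opExt_apply]
  have : (fun s' => (Pi.single (s, k) (1 : ℝ) : r × Fin N → ℝ) (s', k)) = Pi.single s 1 := by
    funext s'
    by_cases h : s' = s
    · subst h; simp
    · rw [Pi.single_eq_of_ne h, Pi.single_eq_of_ne]
      intro h'; exact h (Prod.ext_iff.mp h').1
  rw [this]
  simp only [wtExt]
  ring

/-- diagonal coefficient of the R-matrix -/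
def rdiag (a z : ℝ) (i j : Fin N) : ℝ := if i = j then a else if i < j then 0 else z

lemma tr_ext_R (wt : r → ℝ) (μ : Fin N → ℝ) (a z K : ℝ)
    (hK : ∀ i, ∑ j, μ j * rdiag a z i j = K) (A : Op (r × Fin N)) :
    tr (wtExt (wtExt wt μ) μ) (opExt N A * opR r N a z) = K * tr (wtExt wt μ) A := by
  unfold tr
  rw [Fintype.sum_prod_type, Finset.mul_sum]
  apply Finset.sum_congr rfl
  rintro ⟨s, i⟩ _
  have h1 : ∀ j : Fin N, (opExt N A * opR r N a z) (Pi.single ((s, i), j) 1) ((s, i), j)
      = rdiag a z i j * A (Pi.single (s, i) 1) (s, i) := by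
    intro j
    rw [Module.End.mul_apply, opExt_apply]
    have h2 : (fun s' => opR r N a z (Pi.single ((s, i), j) 1) (s', j))
        = rdiag a z i j • (Pi.single (s, i) 1 : r × Fin N → ℝ) := by
      funext ⟨s', i'⟩
      rw [opR_apply]
      simp only [Pi.smul_apply, smul_eq_mul, Pi.single_apply, Prod.mk.injEq, rdiag]
      by_cases hs : s' = s
      · subst hs
        by_cases hi : i' = i
        · subst hi
          by_cases hij : i' = j
          · subst hij; simp
          · have hji : j ≠ i' := fun h => hij h.symm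
            simp [hij, hji]
        · simp only [hi, true_and, false_and, if_false, mul_zero, and_true, and_false]
          by_cases hij : i' = j
          · simp [hij]
          · have hji : j ≠ i' := fun h => hij h.symm
            simp [hij]
      · simp [hs]
    rw [h2, map_smul]; rfl
  simp only [h1]
  rw [← hK i, Finset.sum_mul]
  apply Finset.sum_congr rfl
  intro j _
  simp only [wtExt]
  ring

end trace

end Pool.Agent.SpiralKnots
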