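import Pool.Agent.SpiralKnots.Words

/-!
# The two lowest coefficients of the trace polynomial of a homogeneous word
-/

set_option linter.unusedSimpArgs false

open Finset Polynomial

namespace Pool.Agent.SpiralKnots

/-- number of changes along the path `e :: l` -/
def trn : ℕ → List ℕ → ℕ
  | _, [] => 0
  | e, a :: l => (if e = a then 0 else 1) + trn a l

/-- number of cyclic changes -/
def cyc : List ℕ → ℕ
  | [] => 0
  | a :: l => trn a (l ++ [a])

/-- restriction of a word to the letters `k, k+1` -/
def res (k : ℕ) (w : List ℕ) : List ℕ := w.filter (fun x => x = k ∨ x = k + 1)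

/-- number of cyclic changes between `k` and `k + 1` -/
def chg (k : ℕ) (w : List ℕ) : ℕ := cyc (res k w)

lemma trn_append_cons (e : ℕ) (l₁ : List ℕ) (a : ℕ) (l₂ : List ℕ) :
    trn e (l₁ ++ a :: l₂) = trn e (l₁ ++ [a]) + trn a l₂ := by
  induction l₁ generalizing e with
  | nil => simp [trn]
  | cons b l ih => simp only [List.cons_append, trn, ih]; ring

lemma cyc_rot (l₁ l₂ : List ℕ) : cyc (l₁ ++ l₂) = cyc (l₂ ++ l₁) := by
  cases l₁ with
  | nil => simp
  | cons a l₁ =>
    cases l₂ with
    | nil => simp
    | cons b l₂ =>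
      simp only [List.cons_append, cyc, List.append_assoc]
      rw [trn_append_cons a l₁ b (l₂ ++ [a]), trn_append_cons b l₂ a (l₁ ++ [b])]
      ring

lemma cyc_dup (a : ℕ) (l : List ℕ) : cyc (a :: a :: l) = cyc (a :: l) := by
  simp [cyc, trn]

lemma trn_pos {x y : ℕ} (hxy : x ≠ y) (r : List ℕ) : 1 ≤ trn x (r ++ [y]) := by
  induction r generalizing x with
  | nil => simp [trn, hxy]
  | cons a r ih =>
    simp only [List.cons_append, trn]
    by_cases hax : x = a
    · subst hax
      have := ih hxy
      omega
    · simp [hax]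

lemma trn_two {x y : ℕ} (hxy : x ≠ y) {r : List ℕ} (hy : y ∈ r) : 2 ≤ trn x (r ++ [x]) := by
  obtain ⟨r1, r2, rfl⟩ := List.append_of_mem hy
  rw [List.append_assoc, List.cons_append, trn_append_cons]
  have h1 := trn_pos hxy r1
  have h2 := trn_pos hxy.symm r2
  omega

lemma trn_zero {x : ℕ} {r : List ℕ} (h : ∀ a ∈ r, a = x) : trn x (r ++ [x]) = 0 := by
  induction r with
  | nil => simp [trn]
  | cons a r ih =>
    have ha : a = x := h a (by simp)
    subst ha
    simp only [List.cons_append, trn, if_true, Nat.zero_add]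
    exact ih (fun b hb => h b (by simp [hb]))

lemma res_append (k : ℕ) (w₁ w₂ : List ℕ) : res k (w₁ ++ w₂) = res k w₁ ++ res k w₂ := by
  simp [res]

lemma chg_rot (k : ℕ) (w₁ w₂ : List ℕ) : chg k (w₁ ++ w₂) = chg k (w₂ ++ w₁) := by
  simp only [chg, res_append, cyc_rot]

lemma res_cons_mem {k a : ℕ} (h : a = k ∨ a = k + 1) (w : List ℕ) :
    res k (a :: w) = a :: res k w := by
  simp [res, h]

lemma res_cons_not {k a : ℕ} (h1 : a ≠ k) (h2 : a ≠ k + 1) (w : List ℕ) :
    res k (a :: w) = res k w := by
  simp [res, h1, h2]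

lemma chg_sq (k l : ℕ) (w : List ℕ) : chg l (k :: k :: w) = chg l (k :: w) := by
  unfold chg
  by_cases h : k = l ∨ k = l + 1
  · rw [res_cons_mem h, res_cons_mem h, cyc_dup]
  · push Not at h
    rw [res_cons_not h.1 h.2]

lemma chg_far (i j l : ℕ) (w : List ℕ) (hij : i + 1 < j) :
    chg l (i :: j :: w) = chg l (j :: i :: w) := by
  unfold chg
  congr 1
  by_cases hi : i = l ∨ i = l + 1
  · have hj1 : j ≠ l := by omega
    have hj2 : j ≠ l + 1 := by omega
    rw [res_cons_mem hi, res_cons_not hj1 hj2, res_cons_not hj1 hj2, res_cons_mem hi]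
  · push Not at hi
    rw [res_cons_not hi.1 hi.2]
    by_cases hj : j = l ∨ j = l + 1
    · rw [res_cons_mem hj, res_cons_mem hj, res_cons_not hi.1 hi.2]
    · push Not at hj
      rw [res_cons_not hj.1 hj.2, res_cons_not hj.1 hj.2, res_cons_not hi.1 hi.2]

/-- off the pair `(i, i+1)` the four words have the same changes -/
lemma chg_braid_off (i l : ℕ) (w : List ℕ) (hl : l ≠ i) :
    chg l (i :: (i + 1) :: i :: w) = chg l (i :: (i + 1) :: w) ∧
    chg l ((i + 1) :: i :: (i + 1) :: w) = chg l (i :: (i + 1) :: w) ∧
    chg l ((i + 1) :: i :: w) = chg l (i :: (i + 1) :: w) := by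
  unfold chg
  by_cases h1 : l + 1 = i
  · -- `l = i - 1`
    have e1 : ∀ v, res l (i :: v) = i :: res l v := fun v => res_cons_mem (by omega) v
    have e2 : ∀ v, res l ((i + 1) :: v) = res l v :=
      fun v => res_cons_not (by omega) (by omega) v
    simp only [e1, e2, cyc_dup, and_self]
  · by_cases h2 : l = i + 1
    · have e1 : ∀ v, res l (i :: v) = res l v := fun v => res_cons_not (by omega) (by omega) v
      have e2 : ∀ v, res l ((i + 1) :: v) = (i + 1) :: res l v :=
        fun v => res_cons_mem (by omega) v
      simp only [e1, e2, cyc_dup, and_self]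
    · have e1 : ∀ v, res l (i :: v) = res l v := fun v => res_cons_not (by omega) (by omega) v
      have e2 : ∀ v, res l ((i + 1) :: v) = res l v :=
        fun v => res_cons_not (by omega) (by omega) v
      simp only [e1, e2, and_self]

lemma mem_res {k x : ℕ} {w : List ℕ} : x ∈ res k w ↔ x ∈ w ∧ (x = k ∨ x = k + 1) := by
  simp [res]

lemma chgA (i : ℕ) (w : List ℕ) :
    chg i (i :: (i + 1) :: i :: w) = 2 + trn i (res i w ++ [i]) := by
  unfold chg
  rw [res_cons_mem (by omega), res_cons_mem (by omega), res_cons_mem (by omega)]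
  simp only [cyc, List.cons_append, trn]
  rw [if_neg (by omega), if_neg (by omega)]
  ring

lemma chgB (i : ℕ) (w : List ℕ) :
    chg i ((i + 1) :: i :: (i + 1) :: w) = 2 + trn (i + 1) (res i w ++ [i + 1]) := by
  unfold chg
  rw [res_cons_mem (by omega), res_cons_mem (by omega), res_cons_mem (by omega)]
  simp only [cyc, List.cons_append, trn]
  rw [if_neg (by omega), if_neg (by omega)]
  ring

lemma chgC (i : ℕ) (w : List ℕ) :
    chg i (i :: (i + 1) :: w) = 1 + trn (i + 1) (res i w ++ [i]) := by
  unfold chg
  rw [res_cons_mem (by omega), res_cons_mem (by omega)]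
  simp only [cyc, List.cons_append, trn]
  rw [if_neg (by omega)]

lemma chgD (i : ℕ) (w : List ℕ) :
    chg i ((i + 1) :: i :: w) = 1 + trn i (res i w ++ [i + 1]) := by
  unfold chg
  rw [res_cons_mem (by omega), res_cons_mem (by omega)]
  simp only [cyc, List.cons_append, trn]
  rw [if_neg (by omega)]

lemma trn_swap (x y : ℕ) {r : List ℕ} (hr : r ≠ []) :
    trn x (r ++ [x]) + trn y (r ++ [y]) = trn y (r ++ [x]) + trn x (r ++ [y]) := by
  cases r with
  | nil => exact absurd rfl hr
  | cons a r =>
    simp only [List.cons_append, trn]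
    ring

/-! ## The local contributions -/

/-- contribution of a letter occurring `n` times -/
noncomputable def phi (e : ℝ) (n : ℕ) : ℝ := if n ≤ 1 then 0 else (n : ℝ) - 1 - e

/-- contribution of a pair of neighbouring letters -/
noncomputable def gam (same : Bool) (e : ℝ) (M : ℕ) : ℝ :=
  if same then (if 4 ≤ M then e else 0) else (if 2 ≤ M then 1 - (M : ℝ) / 2 else 0)

lemma gam_diff (e : ℝ) {M : ℕ} (hM : 2 ≤ M) : gam false e M = 1 - (M : ℝ) / 2 := by
  simp [gam, hM]

/-- `δ` -/
noncomputable def del (k : ℝ) (a : ℕ) : ℝ := if a = 0 then 1 / k else 1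

lemma phi_step (k : ℝ) (a : ℕ) :
    phi (1 - 1 / k) (a + 2) = phi (1 - 1 / k) (a + 1) + del k a := by
  unfold phi del
  rcases Nat.eq_zero_or_pos a with rfl | ha
  · norm_num
  · rw [if_neg (by omega), if_neg (by omega), if_neg (by omega)]
    push_cast
    ring

/-- weight of the letter `k` -/
noncomputable def kap (c : ℝ) (ε : ℕ → Bool) (k : ℕ) : ℝ := if ε k then c else 1 - c

/-- `v^{2 ε_k}` -/
noncomputable def eta (c : ℝ) (ε : ℕ → Bool) (k : ℕ) : ℝ := 1 - 1 / kap c ε k

/-- the lowest coefficient -/
noncomputable def th0 (c : ℝ) (ε : ℕ → Bool) (w : List ℕ) : ℝ := ∏ k ∈ w.toFinset, kap c ε k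

/-- local contribution to the second coefficient -/
noncomputable def loc (c : ℝ) (ε : ℕ → Bool) (w : List ℕ) (k : ℕ) : ℝ :=
  phi (eta c ε k) (w.count k) + gam (ε k == ε (k + 1)) (eta c ε k) (chg k w)

/-- the ratio of the second and the lowest coefficient -/
noncomputable def th (c : ℝ) (ε : ℕ → Bool) (w : List ℕ) : ℝ := ∑ k ∈ w.toFinset, loc c ε w k

section
variable {c : ℝ} (hc0 : c ≠ 0) (hc1 : c ≠ 1) (ε : ℕ → Bool)

include hc0 hc1 in
lemma kap_ne (k : ℕ) : kap c ε k ≠ 0 := by
  unfold kap
  split_ifs
  · exact hc0
  · intro h; apply hc1; linarith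

include hc0 hc1 in
lemma th0_ne (w : List ℕ) : th0 c ε w ≠ 0 := by
  unfold th0
  exact Finset.prod_ne_zero_iff.mpr (fun k _ => kap_ne hc0 hc1 ε k)

include hc0 hc1 in
lemma th0_cons (k : ℕ) (w : List ℕ) :
    th0 c ε w = th0 c ε (k :: w) * del (kap c ε k) (w.count k) := by
  unfold th0 del
  have hk := kap_ne hc0 hc1 ε k
  by_cases h : k ∈ w
  · have h1 : (k :: w).toFinset = w.toFinset := by simp [h]
    have h2 : w.count k ≠ 0 := by
      have := List.count_pos_iff.mpr h; omega
    rw [h1, if_neg h2, mul_one]
  · have h2 : w.count k = 0 := List.count_eq_zero_of_not_mem h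
    rw [if_pos h2, List.toFinset_cons, Finset.prod_insert (by simpa using h)]
    field_simp

lemma th0_congr {w w' : List ℕ} (h : w.toFinset = w'.toFinset) : th0 c ε w = th0 c ε w' := by
  unfold th0; rw [h]

lemma th_congr {w w' : List ℕ} (h : w.toFinset = w'.toFinset) (d : ℕ → ℝ)
    (hd : ∀ l, loc c ε w l = loc c ε w' l + d l) :
    th c ε w = th c ε w' + ∑ l ∈ w'.toFinset, d l := by
  unfold th
  rw [h, ← Finset.sum_add_distrib]
  exact Finset.sum_congr rfl (fun l _ => hd l)

lemma th_rot (w₁ w₂ : List ℕ) : th c ε (w₁ ++ w₂) = th c ε (w₂ ++ w₁) := by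
  have h : (w₁ ++ w₂).toFinset = (w₂ ++ w₁).toFinset := by
    ext x; simp [or_comm]
  rw [th_congr ε h (fun _ => 0)]
  · simp
  · intro l
    unfold loc
    rw [chg_rot l w₁ w₂, List.count_append, List.count_append, Nat.add_comm]
    simp

lemma th0_rot (w₁ w₂ : List ℕ) : th0 c ε (w₁ ++ w₂) = th0 c ε (w₂ ++ w₁) := by
  apply th0_congr
  ext x; simp [or_comm]

lemma th_far (i j : ℕ) (w : List ℕ) (hij : i + 1 < j) :
    th c ε (i :: j :: w) = th c ε (j :: i :: w) := by
  have h : (i :: j :: w).toFinset = (j :: i :: w).toFinset := by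
    ext x; simp only [List.mem_toFinset, List.mem_cons]; tauto
  rw [th_congr ε h (fun _ => 0)]
  · simp
  · intro l
    unfold loc
    rw [chg_far i j l w hij]
    simp only [List.count_cons, add_zero]
    congr 2
    ring

lemma th_sq (k : ℕ) (w : List ℕ) :
    th c ε (k :: k :: w) = th c ε (k :: w) + del (kap c ε k) (w.count k) := by
  have h : (k :: k :: w).toFinset = (k :: w).toFinset := by
    ext x; simp
  rw [th_congr ε h (fun l => if l = k then del (kap c ε k) (w.count k) else 0)]
  · simp
  · intro l
    unfold loc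
    rw [chg_sq]
    by_cases hl : l = k
    · subst hl
      simp only [List.count_cons_self, if_true, eta]
      rw [phi_step]
      ring
    · have : k ≠ l := fun h => hl h.symm
      simp [List.count_cons, hl, this]

/-- the four words of a braid relation -/
lemma th_braid (i : ℕ) (w : List ℕ) :
    th c ε (i :: (i + 1) :: i :: w) = th c ε (i :: (i + 1) :: w) + del (kap c ε i) (w.count i)
        + gam (ε i == ε (i + 1)) (eta c ε i) (chg i (i :: (i + 1) :: i :: w))
        - gam (ε i == ε (i + 1)) (eta c ε i) (chg i (i :: (i + 1) :: w)) ∧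
    th c ε ((i + 1) :: i :: (i + 1) :: w) = th c ε (i :: (i + 1) :: w)
        + del (kap c ε (i + 1)) (w.count (i + 1))
        + gam (ε i == ε (i + 1)) (eta c ε i) (chg i ((i + 1) :: i :: (i + 1) :: w))
        - gam (ε i == ε (i + 1)) (eta c ε i) (chg i (i :: (i + 1) :: w)) ∧
    th c ε ((i + 1) :: i :: w) = th c ε (i :: (i + 1) :: w)
        + gam (ε i == ε (i + 1)) (eta c ε i) (chg i ((i + 1) :: i :: w))
        - gam (ε i == ε (i + 1)) (eta c ε i) (chg i (i :: (i + 1) :: w)) := by
  have hi1 : i + 1 ≠ i := by omega
  have hi1' : i ≠ i + 1 := by omega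
  refine ⟨?_, ?_, ?_⟩
  · have h : (i :: (i + 1) :: i :: w).toFinset = (i :: (i + 1) :: w).toFinset := by
      ext x; simp only [List.mem_toFinset, List.mem_cons]; tauto
    rw [th_congr ε h (fun l => if l = i then del (kap c ε i) (w.count i)
        + gam (ε i == ε (i + 1)) (eta c ε i) (chg i (i :: (i + 1) :: i :: w))
        - gam (ε i == ε (i + 1)) (eta c ε i) (chg i (i :: (i + 1) :: w)) else 0)]
    · simp; ring
    · intro l
      by_cases hl : l = i
      · subst hl
        unfold loc
        have e1 : (l :: (l + 1) :: l :: w).count l = w.count l + 2 := by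
          simp [List.count_cons, hi1, hi1']
        have e2 : (l :: (l + 1) :: w).count l = w.count l + 1 := by
          simp [List.count_cons, hi1, hi1']
        rw [e1, e2]
        simp only [if_true, eta]
        rw [phi_step]
        ring
      · have := (chg_braid_off i l w hl).1
        unfold loc
        rw [this]
        have hl' : i ≠ l := fun h => hl h.symm
        simp [List.count_cons, hl, hl']
  · have h : ((i + 1) :: i :: (i + 1) :: w).toFinset = (i :: (i + 1) :: w).toFinset := by
      ext x; simp only [List.mem_toFinset, List.mem_cons]; tauto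
    rw [th_congr ε h (fun l => (if l = i then
        gam (ε i == ε (i + 1)) (eta c ε i) (chg i ((i + 1) :: i :: (i + 1) :: w))
        - gam (ε i == ε (i + 1)) (eta c ε i) (chg i (i :: (i + 1) :: w)) else 0) +
        (if l = i + 1 then del (kap c ε (i + 1)) (w.count (i + 1)) else 0))]
    · rw [Finset.sum_add_distrib]
      simp; ring
    · intro l
      by_cases hl : l = i
      · subst hl
        unfold loc
        have e1 : ((l + 1) :: l :: (l + 1) :: w).count l = w.count l + 1 := by
          simp [List.count_cons, hi1, hi1']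
        have e2 : (l :: (l + 1) :: w).count l = w.count l + 1 := by
          simp [List.count_cons, hi1, hi1']
        rw [e1, e2]
        simp only [if_true]
        rw [if_neg hi1']
        ring
      · have := (chg_braid_off i l w hl).2.1
        unfold loc
        rw [this, if_neg hl]
        have hl' : i ≠ l := fun h => hl h.symm
        by_cases hl2 : l = i + 1
        · subst hl2
          have e1 : ((i + 1) :: i :: (i + 1) :: w).count (i + 1) = w.count (i + 1) + 2 := by
            simp [List.count_cons, hi1, hi1']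
          have e2 : (i :: (i + 1) :: w).count (i + 1) = w.count (i + 1) + 1 := by
            simp [List.count_cons, hi1, hi1']
          rw [e1, e2]
          simp only [if_true, eta]
          rw [phi_step]
          ring
        · have hl3 : i + 1 ≠ l := fun h => hl2 h.symm
          simp [List.count_cons, hl2, hl', hl3]
  · have h : ((i + 1) :: i :: w).toFinset = (i :: (i + 1) :: w).toFinset := by
      ext x; simp only [List.mem_toFinset, List.mem_cons]; tauto
    rw [th_congr ε h (fun l => if l = i then
        gam (ε i == ε (i + 1)) (eta c ε i) (chg i ((i + 1) :: i :: w))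
        - gam (ε i == ε (i + 1)) (eta c ε i) (chg i (i :: (i + 1) :: w)) else 0)]
    · simp; ring
    · intro l
      by_cases hl : l = i
      · subst hl
        unfold loc
        have e1 : ((l + 1) :: l :: w).count l = w.count l + 1 := by
          simp [List.count_cons, hi1, hi1']
        have e2 : (l :: (l + 1) :: w).count l = w.count l + 1 := by
          simp [List.count_cons, hi1, hi1']
        rw [e1, e2]
        simp only [if_true]
        ring
      · have := (chg_braid_off i l w hl).2.2
        unfold loc
        rw [this]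
        have hl' : i ≠ l := fun h => hl h.symm
        simp [List.count_cons, hl, hl']

lemma th0_braid (i : ℕ) (w : List ℕ) :
    th0 c ε (i :: (i + 1) :: i :: w) = th0 c ε (i :: (i + 1) :: w) ∧
    th0 c ε ((i + 1) :: i :: (i + 1) :: w) = th0 c ε (i :: (i + 1) :: w) ∧
    th0 c ε ((i + 1) :: i :: w) = th0 c ε (i :: (i + 1) :: w) := by
  refine ⟨th0_congr ε ?_, th0_congr ε ?_, th0_congr ε ?_⟩ <;>
  · ext x; simp only [List.mem_toFinset, List.mem_cons]; tauto

/-- same signs: both sides of the braid relation have the same `th` -/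
lemma th_braid_same (i : ℕ) (w : List ℕ) (hs : ε i = ε (i + 1)) :
    th c ε ((i + 1) :: i :: (i + 1) :: w) = th c ε (i :: (i + 1) :: i :: w) := by
  obtain ⟨h1, h2, -⟩ := th_braid (c := c) ε i w
  rw [h1, h2]
  have hk : kap c ε (i + 1) = kap c ε i := by unfold kap; rw [hs]
  have hb : (ε i == ε (i + 1)) = true := by simp [hs]
  rw [hb, hk, chgA, chgB]
  have key : ∀ (a : ℕ) (b : ℕ), del (kap c ε i) a + (if b = 0 then 0 else eta c ε i)
      = 1 / kap c ε i + (if a = 0 then 0 else eta c ε i) + (if b = 0 then 0 else eta c ε i) := by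
    intro a b
    unfold del eta
    split_ifs <;> ring
  have g1 : gam true (eta c ε i) (2 + trn i (res i w ++ [i]))
      = if w.count (i + 1) = 0 then 0 else eta c ε i := by
    unfold gam
    by_cases hm : i + 1 ∈ w
    · have h3 : 2 ≤ trn i (res i w ++ [i]) :=
        trn_two (y := i + 1) (by omega) (mem_res.mpr ⟨hm, by omega⟩)
      have h4 : w.count (i + 1) ≠ 0 := by
        have := List.count_pos_iff.mpr hm; omega
      rw [if_pos rfl, if_pos (by omega), if_neg h4]
    · have h3 : trn i (res i w ++ [i]) = 0 := by
        apply trn_zero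
        intro a ha
        obtain ⟨h5, h6⟩ := mem_res.mp ha
        rcases h6 with h6 | h6
        · exact h6
        · exact absurd (h6 ▸ h5) hm
      rw [if_pos rfl, if_neg (by omega), if_pos (List.count_eq_zero_of_not_mem hm)]
  have g2 : gam true (eta c ε i) (2 + trn (i + 1) (res i w ++ [i + 1]))
      = if w.count i = 0 then 0 else eta c ε i := by
    unfold gam
    by_cases hm : i ∈ w
    · have h3 : 2 ≤ trn (i + 1) (res i w ++ [i + 1]) :=
        trn_two (y := i) (by omega) (mem_res.mpr ⟨hm, by omega⟩)
      have h4 : w.count i ≠ 0 := by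
        have := List.count_pos_iff.mpr hm; omega
      rw [if_pos rfl, if_pos (by omega), if_neg h4]
    · have h3 : trn (i + 1) (res i w ++ [i + 1]) = 0 := by
        apply trn_zero
        intro a ha
        obtain ⟨h5, h6⟩ := mem_res.mp ha
        rcases h6 with h6 | h6
        · exact absurd (h6 ▸ h5) hm
        · exact h6
      rw [if_pos rfl, if_neg (by omega), if_pos (List.count_eq_zero_of_not_mem hm)]
  rw [g1, g2]
  have k1 := key (w.count i) (w.count (i + 1))
  have k2 := key (w.count (i + 1)) (w.count i)
  linarith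

include hc0 hc1 in
/-- opposite signs -/
lemma th_braid_diff (i : ℕ) (w : List ℕ) (hs : ε i ≠ ε (i + 1)) :
    th c ε ((i + 1) :: i :: (i + 1) :: w) + th c ε (i :: (i + 1) :: i :: w)
      = th c ε (i :: (i + 1) :: w) + th c ε ((i + 1) :: i :: w)
        + del (kap c ε i) (w.count i) * del (kap c ε (i + 1)) (w.count (i + 1)) := by
  obtain ⟨h1, h2, h3⟩ := th_braid (c := c) ε i w
  rw [h1, h2, h3]
  have hb : (ε i == ε (i + 1)) = false := by simp [hs]
  have hk : kap c ε (i + 1) = 1 - kap c ε i := by
    unfold kap
    cases h : ε i <;> cases h' : ε (i + 1) <;> simp_all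
  have hk0 := kap_ne hc0 hc1 ε i
  have hk1 := kap_ne hc0 hc1 ε (i + 1)
  rw [hb, chgA, chgB, chgC, chgD]
  by_cases hr : res i w = []
  · -- no letter `i`, `i+1` in `w`
    have hni : w.count i = 0 := List.count_eq_zero_of_not_mem (fun hm => by
      have : i ∈ res i w := mem_res.mpr ⟨hm, by omega⟩
      rw [hr] at this; simp at this)
    have hnj : w.count (i + 1) = 0 := List.count_eq_zero_of_not_mem (fun hm => by
      have : i + 1 ∈ res i w := mem_res.mpr ⟨hm, by omega⟩
      rw [hr] at this; simp at this)
    rw [hr, hni, hnj]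
    have : i ≠ i + 1 := by omega
    have : i + 1 ≠ i := by omega
    simp only [List.nil_append, trn, gam, del, hk]
    rw [hk] at hk1
    simp [*]
    field_simp
    ring
  · have hsw := trn_swap i (i + 1) hr
    have p1 := trn_pos (x := i) (y := i + 1) (by omega) (res i w)
    have p2 := trn_pos (x := i + 1) (y := i) (by omega) (res i w)
    have hor : i ∈ w ∨ i + 1 ∈ w := by
      obtain ⟨a, ha⟩ := List.exists_mem_of_ne_nil _ hr
      obtain ⟨h5, h6⟩ := mem_res.mp ha
      rcases h6 with h6 | h6
      · left; exact h6 ▸ h5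
      · right; exact h6 ▸ h5
    have hd : del (kap c ε i) (w.count i) * del (kap c ε (i + 1)) (w.count (i + 1))
        = del (kap c ε i) (w.count i) + del (kap c ε (i + 1)) (w.count (i + 1)) - 1 := by
      rcases hor with h | h
      · have h4 : w.count i ≠ 0 := by
          have := List.count_pos_iff.mpr h; omega
        unfold del
        rw [if_neg h4]; ring
      · have h4 : w.count (i + 1) ≠ 0 := by
          have := List.count_pos_iff.mpr h; omega
        unfold del
        rw [if_neg h4]; ring
    rw [hd]
    have hsw' : (trn i (res i w ++ [i]) : ℝ) + trn (i + 1) (res i w ++ [i + 1])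
        = trn (i + 1) (res i w ++ [i]) + trn i (res i w ++ [i + 1]) := by
      exact_mod_cast hsw
    rw [gam_diff _ (by omega), gam_diff _ (by omega), gam_diff _ (by omega),
      gam_diff _ (by omega)]
    push_cast
    linarith

lemma gam_small (s : Bool) (e : ℝ) {M : ℕ} (hM : M ≤ 2) : gam s e M = 0 := by
  unfold gam
  split_ifs with h1 h2 h3
  · omega
  · rfl
  · have : M = 2 := by omega
    subst this; norm_num
  · rfl

lemma trn_replicate_le (e : ℕ) {x y : ℕ} {r : List ℕ} (h : ∀ a ∈ r, a = x) :
    trn e (r ++ [y]) ≤ 2 := by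
  induction r generalizing e with
  | nil =>
    simp only [List.nil_append, trn]
    split_ifs <;> omega
  | cons a r ih =>
    have ha : a = x := h a (by simp)
    subst ha
    simp only [List.cons_append, trn]
    have hr : ∀ b ∈ r, b = a := fun b hb => h b (by simp [hb])
    have h2 : trn a (r ++ [y]) ≤ 1 := by
      clear ih h
      induction r with
      | nil => simp only [List.nil_append, trn]; split_ifs <;> omega
      | cons b r ih =>
        have hb : b = a := hr b (by simp)
        subst hb
        simp only [List.cons_append, trn, if_true, Nat.zero_add]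
        exact ih (fun b' hb' => hr b' (by simp [hb']))
    split_ifs <;> omega

/-- Markov step -/
lemma th_markov (k : ℕ) (w : List ℕ) (hw : ∀ i ∈ w, i < k) :
    th c ε (k :: w) = th c ε w := by
  have hk : k ∉ w := fun h => by have := hw k h; omega
  have hkF : k ∉ w.toFinset := by simpa using hk
  unfold th
  rw [List.toFinset_cons, Finset.sum_insert hkF]
  have h1 : loc c ε (k :: w) k = 0 := by
    unfold loc
    have hc : (k :: w).count k = 1 := by
      simp [List.count_cons, List.count_eq_zero_of_not_mem hk]
    have hch : chg k (k :: w) = 0 := by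
      unfold chg
      rw [res_cons_mem (by omega)]
      have : res k w = [] := by
        apply List.eq_nil_iff_forall_not_mem.mpr
        intro a ha
        obtain ⟨h5, h6⟩ := mem_res.mp ha
        have := hw a h5
        omega
      rw [this]
      simp [cyc, trn]
    rw [hc, hch, gam_small _ _ (by omega)]
    simp [phi]
  rw [h1, zero_add]
  apply Finset.sum_congr rfl
  intro l hl
  have hlw : l ∈ w := by simpa using hl
  have hlk := hw l hlw
  unfold loc
  have hc : (k :: w).count l = w.count l := by
    have : k ≠ l := by omega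
    simp [List.count_cons, this]
  rw [hc]
  congr 1
  by_cases h : l + 1 = k
  · have hall : ∀ a ∈ res l w, a = l := by
      intro a ha
      obtain ⟨h5, h6⟩ := mem_res.mp ha
      have := hw a h5
      omega
    rw [gam_small, gam_small]
    · unfold chg
      cases hr : res l w with
      | nil => simp [cyc]
      | cons a r =>
        rw [hr] at hall
        exact trn_replicate_le a (x := l) (fun b hb => hall b (by simp [hb]))
    · unfold chg
      rw [res_cons_mem (by omega)]
      exact trn_replicate_le k (x := l) hall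
  · unfold chg
    rw [res_cons_not (by omega) (by omega)]

end

/-! ## The main statement on families of traces -/

/-- A family of normalised Markov traces on words, with parameters `h i`. -/
structure TraceFamily {ι : Type*} (c : ℝ) (ε : ℕ → Bool) (h : ι → ℝ) (t : ι → List ℕ → ℝ) :
    Prop where
  nil : ∀ i, t i [] = 1
  rot : ∀ i w₁ w₂, t i (w₁ ++ w₂) = t i (w₂ ++ w₁)
  sq : ∀ i k w, t i (k :: k :: w) = t i (k :: w) + h i * t i w
  far : ∀ i a b w, a + 1 < b → t i (a :: b :: w) = t i (b :: a :: w)
  same : ∀ i a w, ε a = ε (a + 1) →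
    t i ((a + 1) :: a :: (a + 1) :: w) = t i (a :: (a + 1) :: a :: w)
  diff : ∀ i a w, ε a ≠ ε (a + 1) →
    t i ((a + 1) :: a :: (a + 1) :: w) + t i (a :: (a + 1) :: a :: w)
      = t i (a :: (a + 1) :: w) + t i ((a + 1) :: a :: w) + h i * t i w
  markov : ∀ i k w, (∀ a ∈ w, a < k) → t i (k :: w) = kap c ε k * t i w

/-- the predicate carried through the reduction -/
def GoodWord {ι : Type*} (c : ℝ) (ε : ℕ → Bool) (h : ι → ℝ) (t : ι → List ℕ → ℝ)
    (w : List ℕ) : Prop :=
  ∃ F : ℝ[X], F.coeff 0 = th0 c ε w ∧ F.coeff 1 = th0 c ε w * th c ε w ∧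
    ∀ i, t i w = F.eval (h i)

theorem goodWord {ι : Type*} {c : ℝ} (hc0 : c ≠ 0) (hc1 : c ≠ 1) {ε : ℕ → Bool} {h : ι → ℝ}
    {t : ι → List ℕ → ℝ} (ht : TraceFamily c ε h t) (w : List ℕ) : GoodWord c ε h t w := by
  have hQ : WordClosed (GoodWord c ε h t) :=
  { nil := ⟨1, by simp [th0], by simp [th, th0, Polynomial.coeff_one], fun i => by simp [ht.nil]⟩
    rot := by
      rintro w₁ w₂ ⟨F, h0, h1, h2⟩
      exact ⟨F, by rw [h0, th0_rot], by rw [h1, th0_rot, th_rot], fun i => by
        rw [← ht.rot, h2]⟩
    sq := by
      rintro k w ⟨F, h0, h1, h2⟩ ⟨G, g0, g1, g2⟩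
      refine ⟨F + X * G, ?_, ?_, ?_⟩
      · rw [Polynomial.coeff_add, Polynomial.coeff_X_mul_zero, h0, add_zero]
        apply th0_congr
        ext x; simp
      · rw [Polynomial.coeff_add, Polynomial.coeff_X_mul, h1, g0, th_sq,
          th0_cons hc0 hc1 ε k w]
        have : th0 c ε (k :: k :: w) = th0 c ε (k :: w) := by
          apply th0_congr
          ext x; simp
        rw [this]; ring
      · intro i
        rw [ht.sq, h2, g2]
        simp
    far := by
      intro i j w hij
      constructor
      · rintro ⟨F, h0, h1, h2⟩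
        have e0 : th0 c ε (i :: j :: w) = th0 c ε (j :: i :: w) := by
          apply th0_congr
          ext x; simp only [List.mem_toFinset, List.mem_cons]; tauto
        exact ⟨F, by rw [h0, e0], by rw [h1, e0, th_far ε i j w hij], fun a => by
          rw [← ht.far a i j w hij, h2]⟩
      · rintro ⟨F, h0, h1, h2⟩
        have e0 : th0 c ε (i :: j :: w) = th0 c ε (j :: i :: w) := by
          apply th0_congr
          ext x; simp only [List.mem_toFinset, List.mem_cons]; tauto
        exact ⟨F, by rw [h0, e0], by rw [h1, e0, th_far ε i j w hij], fun a => by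
          rw [ht.far a i j w hij, h2]⟩
    braid := by
      rintro i w ⟨A, a0, a1, a2⟩ ⟨C, c0, c1, c2⟩ ⟨D, d0, d1, d2⟩ ⟨W, w0, w1, w2⟩
      obtain ⟨e1, e2, e3⟩ := th0_braid (c := c) ε i w
      by_cases hs : ε i = ε (i + 1)
      · refine ⟨A, by rw [a0, e1, e2], by rw [a1, e1, e2, th_braid_same ε i w hs], fun a => ?_⟩
        rw [ht.same a i w hs, a2]
      · refine ⟨C + D + X * W - A, ?_, ?_, ?_⟩
        · simp only [Polynomial.coeff_sub, Polynomial.coeff_add, Polynomial.coeff_X_mul_zero,
            c0, d0, a0, e1, e2, e3]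
          ring
        · simp only [Polynomial.coeff_sub, Polynomial.coeff_add, Polynomial.coeff_X_mul,
            c1, d1, a1, w0, e1, e2, e3]
          have hd := th_braid_diff hc0 hc1 ε i w hs
          have k1 := th0_cons hc0 hc1 ε (i + 1) w
          have k2 := th0_cons hc0 hc1 ε i ((i + 1) :: w)
          have k3 : ((i + 1) :: w).count i = w.count i := by
            simp [List.count_cons]
          rw [k3] at k2
          have : th c ε ((i + 1) :: i :: (i + 1) :: w)
            = th c ε (i :: (i + 1) :: w) + th c ε ((i + 1) :: i :: w)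
              + del (kap c ε i) (w.count i) * del (kap c ε (i + 1)) (w.count (i + 1))
              - th c ε (i :: (i + 1) :: i :: w) := by linarith
          rw [this, k1, k2]
          ring
        · intro a
          have := ht.diff a i w hs
          rw [a2, c2, d2, w2] at this
          simp only [Polynomial.eval_sub, Polynomial.eval_add, Polynomial.eval_mul,
            Polynomial.eval_X]
          linarith
    markov := by
      rintro k w hw ⟨F, h0, h1, h2⟩
      have hk : k ∉ w := fun h => by have := hw k h; omega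
      have e0 : th0 c ε (k :: w) = kap c ε k * th0 c ε w := by
        unfold th0
        rw [List.toFinset_cons, Finset.prod_insert (by simpa using hk)]
      refine ⟨Polynomial.C (kap c ε k) * F, ?_, ?_, ?_⟩
      · rw [Polynomial.coeff_C_mul, h0, e0]
      · rw [Polynomial.coeff_C_mul, h1, e0, th_markov ε k w hw]; ring
      · intro i
        rw [ht.markov i k w hw, h2]
        simp }
  exact hQ.all w

end Pool.Agent.SpiralKnots
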