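import Pool.Agent.SpiralKnots.RMatrix
import Pool.Agent.SpiralKnots.Defs
import Pool.Agent.SpiralKnots.Theta

/-!
# The R-matrix representation of the braid groups and its Markov trace
-/

set_option linter.unusedSectionVars false
set_option linter.unusedSimpArgs false

namespace Pool.Agent.SpiralKnots

/-- states of `n` strands -/
def St (N : ℕ) : ℕ → Type
  | 0 => Unit
  | n + 1 => St N n × Fin N

instance stFintype (N : ℕ) : ∀ n, Fintype (St N n)
  | 0 => inferInstanceAs (Fintype Unit)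
  | n + 1 =>
    letI := stFintype N n
    inferInstanceAs (Fintype (St N n × Fin N))

instance stDecEq (N : ℕ) : ∀ n, DecidableEq (St N n)
  | 0 => inferInstanceAs (DecidableEq Unit)
  | n + 1 =>
    letI := stDecEq N n
    inferInstanceAs (DecidableEq (St N n × Fin N))

/-- numerical data of an R-matrix with a Markov trace -/
structure RData where
  N : ℕ
  a : ℝ
  z : ℝ
  μ : Fin N → ℝ
  K : ℝ
  ha : a * a = z * a + 1
  hz : z ≠ 0
  hK0 : K ≠ 0
  hK : ∀ i, ∑ j, μ j * rdiag a z i j = K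
  hD : z * ∑ j, μ j = K - K⁻¹
  hK1 : K - K⁻¹ ≠ 0

namespace RData

variable (P : RData)

/-- the weight -/
def wt : (n : ℕ) → St P.N n → ℝ
  | 0 => fun _ => 1
  | n + 1 => wtExt (wt n) P.μ

/-- loop value -/
def D : ℝ := ∑ j, P.μ j

lemma D_ne : P.D ≠ 0 := by
  intro h
  apply P.hK1
  rw [← P.hD]
  unfold D at h
  rw [h, mul_zero]

/-- one more strand -/
def ex {n : ℕ} (A : Op (St P.N n)) : Op (St P.N (n + 1)) := opExt P.N A

/-- the R-matrix on the last two strands -/
def Rm (n : ℕ) : Op (St P.N (n + 2)) := opR (St P.N n) P.N P.a P.z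

lemma ex_mul {n : ℕ} (A B : Op (St P.N n)) : P.ex (A * B) = P.ex A * P.ex B := rfl
lemma ex_one {n : ℕ} : P.ex (1 : Op (St P.N n)) = 1 := rfl
lemma ex_add {n : ℕ} (A B : Op (St P.N n)) : P.ex (A + B) = P.ex A + P.ex B := rfl
lemma ex_sub {n : ℕ} (A B : Op (St P.N n)) : P.ex (A - B) = P.ex A - P.ex B := rfl
lemma ex_smul {n : ℕ} (c : ℝ) (A : Op (St P.N n)) : P.ex (c • A) = c • P.ex A := rfl

lemma Rm_sq (n : ℕ) : P.Rm n * P.Rm n = P.z • P.Rm n + 1 := opR_sq P.ha
lemma Rm_comm {n : ℕ} (A : Op (St P.N n)) : P.ex (P.ex A) * P.Rm n = P.Rm n * P.ex (P.ex A) :=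
  opR_comm _ _ _
lemma Rm_braid (n : ℕ) : P.ex (P.Rm n) * P.Rm (n + 1) * P.ex (P.Rm n)
    = P.Rm (n + 1) * P.ex (P.Rm n) * P.Rm (n + 1) := opR_braid P.ha
lemma W_Rm (n : ℕ) : Commute (opW (P.wt (n + 2))) (P.Rm n) := opW_R_comm _ _ _ _
lemma W_ex {n : ℕ} {A : Op (St P.N n)} (h : Commute (opW (P.wt n)) A) :
    Commute (opW (P.wt (n + 1))) (P.ex A) := opW_ext_comm _ h

/-- the operator of `σ_i` -/
def G : (m : ℕ) → ℕ → Op (St P.N (m + 1))
  | 0, _ => 1
  | m + 1, i => if i = m then P.Rm m else P.ex (G m i)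

lemma G_last (m : ℕ) : P.G (m + 1) m = P.Rm m := by
  rw [G, if_pos rfl]

lemma G_ext {m i : ℕ} (h : i ≠ m) : P.G (m + 1) i = P.ex (P.G m i) := by
  rw [G, if_neg h]

lemma G_sq : ∀ m i, i < m → P.G m i * P.G m i = P.z • P.G m i + 1 := by
  intro m
  induction m with
  | zero => intro i hi; omega
  | succ m ih =>
    intro i hi
    rcases Nat.lt_succ_iff_lt_or_eq.mp hi with h | h
    · rw [G_ext P (by omega), ← ex_mul, ih i h]
      rfl
    · subst h
      rw [G_last, Rm_sq]

lemma G_far : ∀ m i j, i + 1 < j → j < m → P.G m i * P.G m j = P.G m j * P.G m i := by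
  intro m
  induction m with
  | zero => intro i j _ hi; omega
  | succ m ih =>
    intro i j hij hj
    rcases Nat.lt_succ_iff_lt_or_eq.mp hj with h | h
    · rw [G_ext P (by omega), G_ext P (by omega), ← ex_mul, ih i j hij h, ex_mul]
    · subst h
      obtain ⟨m', rfl⟩ : ∃ m', j = m' + 1 := ⟨j - 1, by omega⟩
      rw [G_last, G_ext P (by omega), G_ext P (by omega), Rm_comm]

lemma G_braid : ∀ m i, i + 1 < m →
    P.G m i * P.G m (i + 1) * P.G m i = P.G m (i + 1) * P.G m i * P.G m (i + 1) := by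
  intro m
  induction m with
  | zero => intro i hi; omega
  | succ m ih =>
    intro i hi
    rcases Nat.lt_succ_iff_lt_or_eq.mp hi with h | h
    · rw [G_ext P (by omega), G_ext P (by omega), ← ex_mul, ← ex_mul, ih i h]
      rfl
    · subst h
      rw [G_last, G_ext P (by omega), G_last, Rm_braid]

lemma W_G : ∀ m i, Commute (opW (P.wt (m + 1))) (P.G m i) := by
  intro m
  induction m with
  | zero => intro i; exact Commute.one_right _
  | succ m ih =>
    intro i
    by_cases h : i = m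
    · subst h
      rw [G_last]
      exact P.W_Rm _
    · rw [G_ext P h]
      exact P.W_ex (ih i)

/-- the trace on `m + 1` strands -/
noncomputable def T (m : ℕ) (A : Op (St P.N (m + 1))) : ℝ := tr (P.wt (m + 1)) A

lemma T_ext (m : ℕ) (A : Op (St P.N (m + 1))) : P.T (m + 1) (P.ex A) = P.D * P.T m A :=
  tr_ext _ _ _

lemma T_ext_G (m : ℕ) (A : Op (St P.N (m + 1))) :
    P.T (m + 1) (P.ex A * P.G (m + 1) m) = P.K * P.T m A := by
  rw [G_last]
  exact tr_ext_R (P.wt m) P.μ P.a P.z P.K P.hK A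

lemma T_smul (m : ℕ) (c : ℝ) (A : Op (St P.N (m + 1))) : P.T m (c • A) = c * P.T m A :=
  tr_smul _ _ _

lemma T_add (m : ℕ) (A B : Op (St P.N (m + 1))) : P.T m (A + B) = P.T m A + P.T m B :=
  tr_add _ _ _

lemma T_sub (m : ℕ) (A B : Op (St P.N (m + 1))) : P.T m (A - B) = P.T m A - P.T m B :=
  tr_sub _ _ _

lemma T_comm (m : ℕ) {A B : Op (St P.N (m + 1))} (h : Commute (opW (P.wt (m + 1))) B) :
    P.T m (A * B) = P.T m (B * A) := tr_mul_comm h

lemma T_one : ∀ m : ℕ, P.T m 1 = P.D ^ (m + 1) := by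
  intro m
  induction m with
  | zero =>
    have h : P.T 0 1 = tr (wtExt (P.wt 0) P.μ) (opExt P.N 1) := rfl
    rw [h, tr_ext]
    have : tr (P.wt 0) 1 = 1 := by
      show ∑ s : Unit, (1 : ℝ) * (Pi.single s (1 : ℝ) : Unit → ℝ) s = 1
      simp
    rw [this]
    simp [D]
  | succ m ih =>
    have := P.T_ext m 1
    rw [ex_one] at this
    rw [this, ih]
    ring

/-! ### The group representation -/

lemma inv_rel1 (m i : ℕ) (hi : i < m) :
    (P.K⁻¹ • P.G m i) * (P.K • (P.G m i - P.z • 1)) = 1 := by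
  rw [smul_mul_smul_comm, inv_mul_cancel₀ P.hK0, one_smul, mul_sub, G_sq P m i hi]
  simp

lemma inv_rel2 (m i : ℕ) (hi : i < m) :
    (P.K • (P.G m i - P.z • 1)) * (P.K⁻¹ • P.G m i) = 1 := by
  rw [smul_mul_smul_comm, mul_inv_cancel₀ P.hK0, one_smul, sub_mul, G_sq P m i hi]
  simp

/-- the unit representing `σ_i` -/
noncomputable def gu (m : ℕ) (i : Fin m) : (Op (St P.N (m + 1)))ˣ where
  val := P.K⁻¹ • P.G m i
  inv := P.K • (P.G m i - P.z • 1)
  val_inv := P.inv_rel1 m i i.2
  inv_val := P.inv_rel2 m i i.2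

/-- the representation -/
noncomputable def rep (m : ℕ) : Braid m →* (Op (St P.N (m + 1)))ˣ :=
  braidLift (P.gu m)
    (fun i j h => by
      apply Units.ext
      simp only [Units.val_mul, gu, smul_mul_smul_comm]
      rw [← h, G_braid P m i (by rw [h]; exact j.2)])
    (fun i j h => by
      apply Units.ext
      simp only [Units.val_mul, gu, smul_mul_smul_comm]
      rw [G_far P m i j h j.2])

lemma W_rep (m : ℕ) (x : Braid m) :
    Commute (opW (P.wt (m + 1))) (P.rep m x : Op (St P.N (m + 1))) := by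
  induction x using braid_induction with
  | h1 => simp
  | hmul x y hx hy =>
    rw [map_mul, Units.val_mul]
    exact hx.mul_right hy
  | hinv x hx =>
    rw [map_inv]
    exact hx.units_inv_right
  | hg i =>
    rw [rep, braidLift_sg]
    exact (P.W_G m i).smul_right _

/-- unit version of `ex` -/
def unitExt (n : ℕ) : (Op (St P.N n))ˣ →* (Op (St P.N (n + 1)))ˣ :=
  Units.map
    { toFun := P.ex, map_one' := rfl, map_mul' := fun _ _ => rfl }

lemma rep_incl (m : ℕ) (x : Braid m) :
    (P.rep (m + 1) (incl m x) : Op (St P.N (m + 2))) = P.ex (P.rep m x) := by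
  have h : (P.rep (m + 1)).comp (incl m) = (P.unitExt (m + 1)).comp (P.rep m) := by
    apply hom_ext
    intro i
    simp only [MonoidHom.comp_apply, incl, rep, braidLift_sg]
    apply Units.ext
    simp only [gu, unitExt, Units.coe_map, MonoidHom.coe_mk, OneHom.coe_mk,
      Fin.val_castSucc]
    rw [G_ext P (by have := i.2; omega)]
    rfl
  have := congrArg (fun f => ((f x : (Op (St P.N (m + 2)))ˣ) : Op (St P.N (m + 2)))) h
  exact this

/-- the Markov trace of a braid -/
noncomputable def J (x : AnyBraid) : ℝ := P.T x.1 (P.rep x.1 x.2)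

lemma J_move {x y : AnyBraid} (h : MarkovMove x y) : P.J x = P.J y := by
  cases h with
  | conj m α β =>
    unfold J
    simp only [map_mul, Units.val_mul]
    rw [P.T_comm m (A := (P.rep m α : Op (St P.N (m + 1))) * (P.rep m β))
      (B := (P.rep m α⁻¹)) (P.W_rep m _), ← mul_assoc, map_inv, Units.inv_mul, one_mul]
  | stabPos m β =>
    unfold J
    simp only [map_mul, Units.val_mul]
    rw [rep_incl]
    have : (P.rep (m + 1) (sg (Fin.last m)) : Op (St P.N (m + 2)))
        = P.K⁻¹ • P.G (m + 1) m := by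
      rw [rep, braidLift_sg]; rfl
    rw [this, mul_smul_comm]
    rw [T_smul, T_ext_G]
    rw [← mul_assoc, inv_mul_cancel₀ P.hK0, one_mul]
  | stabNeg m β =>
    unfold J
    simp only [map_mul, Units.val_mul, map_inv]
    rw [rep_incl]
    have : ((P.rep (m + 1) (sg (Fin.last m)))⁻¹ : (Op (St P.N (m + 2)))ˣ).val
        = P.K • (P.G (m + 1) m - P.z • 1) := by
      rw [rep, braidLift_sg]; rfl
    rw [this, mul_smul_comm, mul_sub, mul_smul_comm, mul_one]
    rw [T_smul, T_sub, T_smul, T_ext_G, T_ext]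
    rw [← mul_assoc P.z]
    have hD : P.z * P.D = P.K - P.K⁻¹ := P.hD
    rw [hD]
    have := P.hK0
    field_simp
    ring

lemma J_same {x y : AnyBraid} (h : SameClosure x y) : P.J x = P.J y := by
  induction h with
  | rel x y h => exact P.J_move h
  | refl x => rfl
  | symm x y _ ih => exact ih.symm
  | trans x y z _ _ ih1 ih2 => exact ih1.trans ih2

end RData

end Pool.Agent.SpiralKnots
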