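import Pool.Agent.SpiralKnots.Compare

/-!
# The invariants of spiral words
-/

set_option linter.unusedSimpArgs false

open Finset

namespace Pool.Agent.SpiralKnots

/-- `q`-th power of a word -/
def wpow {α : Type} (q : ℕ) (L : List α) : List α := (List.replicate q L).flatten

lemma wpow_zero {α : Type} (L : List α) : wpow 0 L = [] := rfl

lemma wpow_succ {α : Type} (q : ℕ) (L : List α) : wpow (q + 1) L = L ++ wpow q L := by
  simp [wpow, List.replicate_succ]

lemma wpow_succ' {α : Type} (q : ℕ) (L : List α) : wpow (q + 1) L = wpow q L ++ L := by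
  simp [wpow, List.replicate_succ']

lemma wpow_reverse {α : Type} (q : ℕ) (L : List α) : (wpow q L).reverse = wpow q L.reverse := by
  induction q with
  | zero => simp [wpow]
  | succ q ih => rw [wpow_succ, List.reverse_append, ih, wpow_succ']

lemma wpow_map {α β : Type} (q : ℕ) (f : α → β) (L : List α) :
    (wpow q L).map f = wpow q (L.map f) := by
  induction q with
  | zero => simp [wpow]
  | succ q ih => rw [wpow_succ, List.map_append, ih, wpow_succ]

lemma wpow_length {α : Type} (q : ℕ) (L : List α) : (wpow q L).length = q * L.length := by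
  simp [wpow]

lemma wpow_count (q : ℕ) (L : List ℕ) (k : ℕ) : (wpow q L).count k = q * L.count k := by
  induction q with
  | zero => simp [wpow]
  | succ q ih => rw [wpow_succ, List.count_append, ih]; ring

lemma wpow_res (q : ℕ) (L : List ℕ) (k : ℕ) : res k (wpow q L) = wpow q (res k L) := by
  induction q with
  | zero => simp [wpow, res]
  | succ q ih => rw [wpow_succ, res_append, ih, wpow_succ]

lemma wpow_toFinset (q : ℕ) (hq : q ≠ 0) (L : List ℕ) : (wpow q L).toFinset = L.toFinset := by
  ext x
  simp [wpow, hq]

lemma trn_wpow (x y : ℕ) (hxy : x ≠ y) (q : ℕ) :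
    trn x (wpow q [y, x] ++ [y]) = 2 * q + 1 := by
  induction q with
  | zero => simp [wpow, trn, hxy]
  | succ q ih =>
    rw [wpow_succ]
    simp only [List.cons_append, List.nil_append, trn]
    rw [ih]
    simp only [if_neg hxy, if_neg hxy.symm]
    ring

lemma cyc_wpow (x y : ℕ) (hxy : x ≠ y) (q : ℕ) : cyc (wpow q [x, y]) = 2 * q := by
  cases q with
  | zero => simp [wpow, cyc]
  | succ q =>
    have h := trn_wpow y x hxy.symm q
    rw [wpow_succ]
    simp only [List.cons_append, List.nil_append, cyc, trn]
    rw [h]
    simp only [if_neg hxy]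
    ring

lemma cyc_wpow_one (x : ℕ) (q : ℕ) : cyc (wpow q [x]) = 0 := by
  cases q with
  | zero => simp [wpow, cyc]
  | succ q =>
    rw [wpow_succ]
    simp only [List.cons_append, List.nil_append, cyc]
    apply trn_zero
    intro a ha
    simp [wpow] at ha
    exact ha.2

lemma res_range_small (k m : ℕ) (h : m ≤ k) : res k (List.range m) = [] := by
  apply List.eq_nil_iff_forall_not_mem.mpr
  intro a ha
  obtain ⟨h5, h6⟩ := mem_res.mp ha
  have := List.mem_range.mp h5
  omega

lemma res_range_one (k : ℕ) : res k (List.range (k + 1)) = [k] := by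
  rw [List.range_succ, res_append, res_range_small k k le_rfl]
  simp [res]

lemma res_range (k m : ℕ) (h : k + 1 < m) : res k (List.range m) = [k, k + 1] := by
  induction m, (show k + 2 ≤ m by omega) using Nat.le_induction with
  | base =>
    rw [List.range_succ, res_append, res_range_one]
    simp [res]
  | succ n hn ih =>
    rw [List.range_succ, res_append, ih (by omega)]
    have : res k [n] = [] := by
      have h1 : n ≠ k := by omega
      have h2 : n ≠ k + 1 := by omega
      simp [res, h1, h2]
    rw [this]
    simp

/-- one period of a spiral word: increasing or decreasing -/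
inductive IsPeriod (m : ℕ) : List ℕ → Prop
  | inc : IsPeriod m (List.range m)
  | dec : IsPeriod m (List.range m).reverse

lemma IsPeriod.toFinset {m : ℕ} {L : List ℕ} (h : IsPeriod m L) : L.toFinset = Finset.range m := by
  cases h <;> · ext x; simp

lemma IsPeriod.count {m : ℕ} {L : List ℕ} (h : IsPeriod m L) {k : ℕ} (hk : k < m) :
    L.count k = 1 := by
  have : (List.range m).count k = 1 :=
    List.count_eq_one_of_mem List.nodup_range (List.mem_range.mpr hk)
  cases h
  · exact this
  · rw [List.count_reverse, this]

lemma IsPeriod.chg {m : ℕ} {L : List ℕ} (h : IsPeriod m L) (q : ℕ) {k : ℕ} (hk : k < m) :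
    chg k (wpow q L) = if k + 1 < m then 2 * q else 0 := by
  unfold SpiralKnots.chg
  rw [wpow_res]
  split_ifs with h1
  · cases h
    · rw [res_range k m h1]
      exact cyc_wpow k (k + 1) (by omega) q
    · have : res k (List.range m).reverse = [k + 1, k] := by
        unfold res
        rw [List.filter_reverse]
        have := res_range k m h1
        unfold res at this
        rw [this]
        rfl
      rw [this]
      exact cyc_wpow (k + 1) k (by omega) q
  · have hm : m = k + 1 := by omega
    subst hm
    cases h
    · rw [res_range_one]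
      exact cyc_wpow_one k q
    · have : res k (List.range (k + 1)).reverse = [k] := by
        unfold res
        rw [List.filter_reverse]
        have := res_range_one k
        unfold res at this
        rw [this]
        rfl
      rw [this]
      exact cyc_wpow_one k q

/-- number of positive runs of the sign pattern -/
def rp (m : ℕ) (ε : ℕ → Bool) : ℕ :=
  ((range m).filter (fun k => ε k = true ∧ (k + 1 = m ∨ ε k ≠ ε (k + 1)))).card

/-- number of negative runs of the sign pattern -/
def rn (m : ℕ) (ε : ℕ → Bool) : ℕ :=
  ((range m).filter (fun k => ε k = false ∧ (k + 1 = m ∨ ε k ≠ ε (k + 1)))).card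

/-- number of sign changes -/
def sn (m : ℕ) (ε : ℕ → Bool) : ℕ :=
  ((range m).filter (fun k => k + 1 < m ∧ ε k ≠ ε (k + 1))).card

lemma runs_eq (m : ℕ) (ε : ℕ → Bool) (hm : m ≠ 0) : rp m ε + rn m ε = sn m ε + 1 := by
  have h1 : rp m ε + rn m ε
      = ((range m).filter (fun k => k + 1 = m ∨ ε k ≠ ε (k + 1))).card := by
    unfold rp rn
    rw [← Finset.card_union_of_disjoint]
    · congr 1
      ext k
      simp only [Finset.mem_union, Finset.mem_filter]
      cases ε k <;> simp
    · rw [Finset.disjoint_left]
      intro k hk hk'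
      simp only [Finset.mem_filter] at hk hk'
      rw [hk.2.1] at hk'
      exact absurd hk'.2.1 (by simp)
  have hone : ((range m).filter (fun k => k + 1 = m)).card = 1 := by
    have : (range m).filter (fun k => k + 1 = m) = {m - 1} := by
      ext k
      simp only [Finset.mem_filter, Finset.mem_range, Finset.mem_singleton]
      omega
    rw [this]; simp
  have h2 : sn m ε + ((range m).filter (fun k => k + 1 = m)).card
      = ((range m).filter (fun k => k + 1 = m ∨ ε k ≠ ε (k + 1))).card := by
    unfold sn
    rw [← Finset.card_union_of_disjoint]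
    · congr 1
      ext k
      simp only [Finset.mem_union, Finset.mem_filter, Finset.mem_range]
      constructor
      · rintro (h | h)
        · exact ⟨h.1, Or.inr h.2.2⟩
        · exact ⟨h.1, Or.inl h.2⟩
      · rintro ⟨h, h' | h'⟩
        · exact Or.inr ⟨h, h'⟩
        · by_cases h3 : k + 1 = m
          · exact Or.inr ⟨h, h3⟩
          · exact Or.inl ⟨h, by omega, h'⟩
    · rw [Finset.disjoint_left]
      intro k hk hk'
      simp only [Finset.mem_filter] at hk hk'
      omega
  rw [h1, ← h2, hone]

lemma eta_true {K : ℝ} (hK : 1 < K) {ε : ℕ → Bool} {k : ℕ} (h : ε k = true) :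
    eta (cOf K) ε k = (K ^ 2)⁻¹ := by
  have h0 := kk_pos hK
  have hK0 : K ≠ 0 := by positivity
  unfold eta kap cOf
  rw [if_pos h]
  have h1 : K - K⁻¹ ≠ 0 := h0.ne'
  field_simp
  ring

lemma eta_false {K : ℝ} (hK : 1 < K) {ε : ℕ → Bool} {k : ℕ} (h : ε k = false) :
    eta (cOf K) ε k = K ^ 2 := by
  have h0 := kk_pos hK
  have hK0 : K ≠ 0 := by positivity
  have h1 : K ^ 2 - 1 ≠ 0 := by nlinarith
  have h2 : cOf K = K ^ 2 / (K ^ 2 - 1) := by
    unfold cOf
    have h1 : K - K⁻¹ ≠ 0 := h0.ne'
    rw [div_eq_div_iff h1 (by assumption)]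
    field_simp
  unfold eta kap
  rw [if_neg (by simp [h]), h2]
  have h3 : 1 - K ^ 2 / (K ^ 2 - 1) = -1 / (K ^ 2 - 1) := by field_simp; ring
  rw [h3]
  field_simp
  ring

/-- value of the second coefficient on a spiral word -/
theorem th_spiral {m q : ℕ} (hq : 2 ≤ q) {L : List ℕ} (hL : IsPeriod m L) (ε : ℕ → Bool)
    {K : ℝ} (hK : 1 < K) :
    th (cOf K) ε (wpow q L) = m * ((q : ℝ) - 1) - rp m ε * (K ^ 2)⁻¹ - rn m ε * K ^ 2
      - sn m ε * ((q : ℝ) - 1) := by
  unfold th
  rw [wpow_toFinset q (by omega), hL.toFinset]
  have key : ∀ k ∈ range m, loc (cOf K) ε (wpow q L) k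
      = ((q : ℝ) - 1)
        - (if ε k = true ∧ (k + 1 = m ∨ ε k ≠ ε (k + 1)) then (K ^ 2)⁻¹ else 0)
        - (if ε k = false ∧ (k + 1 = m ∨ ε k ≠ ε (k + 1)) then K ^ 2 else 0)
        - (if k + 1 < m ∧ ε k ≠ ε (k + 1) then ((q : ℝ) - 1) else 0) := by
    intro k hk
    have hk' := Finset.mem_range.mp hk
    unfold loc
    rw [wpow_count, hL.count hk', hL.chg q hk', mul_one]
    have hphi : ∀ e : ℝ, phi e q = q - 1 - e := by
      intro e
      unfold phi
      rw [if_neg (by omega)]
    rw [hphi]
    by_cases h1 : k + 1 = m
    · have h2 : ¬ (k + 1 < m) := by omega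
      rw [if_neg h2, gam_small _ _ (by omega)]
      cases h : ε k
      · rw [eta_false hK h]; simp [h1, h2]
      · rw [eta_true hK h]; simp [h1, h2]
    · have h2 : k + 1 < m := by omega
      rw [if_pos h2]
      by_cases hs : ε k = ε (k + 1)
      · have hb : (ε k == ε (k + 1)) = true := by simp [hs]
        rw [hb]
        unfold gam
        rw [if_pos rfl, if_pos (by omega)]
        simp [h1, hs]
      · have hb : (ε k == ε (k + 1)) = false := by simp [hs]
        rw [hb, gam_diff _ (by omega)]
        cases h : ε k
        · have h' : ε (k + 1) = true := by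
            rw [h] at hs; revert hs; cases ε (k + 1) <;> simp
          rw [eta_false hK h]
          simp [h2, h']
          ring
        · have h' : ε (k + 1) = false := by
            rw [h] at hs; revert hs; cases ε (k + 1) <;> simp
          rw [eta_true hK h]
          simp [h2, h']
          ring
  rw [Finset.sum_congr rfl key]
  simp only [Finset.sum_sub_distrib, Finset.sum_ite, Finset.sum_const, Finset.sum_const_zero,
    add_zero, Finset.card_range, nsmul_eq_mul]
  unfold rp rn sn
  ring

/-- solving the linear system -/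
lemma solve3 {a b c a' b' c' : ℝ}
    (h : ∀ K : ℝ, 1 < K → a * (K ^ 2)⁻¹ + b * K ^ 2 + c = a' * (K ^ 2)⁻¹ + b' * K ^ 2 + c') :
    a = a' ∧ b = b' ∧ c = c' := by
  have h1 := h 2 (by norm_num)
  have h2 := h 3 (by norm_num)
  have h3 := h 4 (by norm_num)
  norm_num at h1 h2 h3
  refine ⟨by linarith, by linarith, by linarith⟩

end Pool.Agent.SpiralKnots
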