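import Mathlib

/-!
# Reduction of words and the two lowest coefficients

Combinatorics of words in the letters `0, 1, 2, …` used for the HOMFLY-type polynomial of the
closure of a homogeneous braid.
-/

namespace Pool.Agent.SpiralKnots

/-! ## A closure principle for words -/

/-- A predicate on words stable under the Hecke type reductions. -/
structure WordClosed (Q : List ℕ → Prop) : Prop where
  nil : Q []
  rot : ∀ w₁ w₂ : List ℕ, Q (w₁ ++ w₂) → Q (w₂ ++ w₁)
  sq : ∀ (k : ℕ) (w : List ℕ), Q (k :: w) → Q w → Q (k :: k :: w)
  far : ∀ (i j : ℕ) (w : List ℕ), i + 1 < j → (Q (i :: j :: w) ↔ Q (j :: i :: w))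
  braid : ∀ (i : ℕ) (w : List ℕ), Q (i :: (i + 1) :: i :: w) → Q (i :: (i + 1) :: w) →
    Q ((i + 1) :: i :: w) → Q w → Q ((i + 1) :: i :: (i + 1) :: w)
  markov : ∀ (k : ℕ) (w : List ℕ), (∀ i ∈ w, i < k) → Q w → Q (k :: w)

namespace WordClosed

variable {Q : List ℕ → Prop} (hQ : WordClosed Q)
include hQ

lemma rot' (d w c : List ℕ) : Q (d ++ w ++ c) ↔ Q (w ++ (c ++ d)) := by
  constructor
  · intro h
    have := hQ.rot d (w ++ c) (by simpa using h)
    simpa using this
  · intro h
    have := hQ.rot (w ++ c) d (by simpa using h)
    simpa using this

lemma far_ctx1 (i j : ℕ) (d c : List ℕ) (hij : i + 1 < j) :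
    Q (d ++ i :: j :: c) ↔ Q (d ++ j :: i :: c) := by
  have h1 := hQ.rot' d [i, j] c
  have h2 := hQ.rot' d [j, i] c
  have h3 := hQ.far i j (c ++ d) hij
  simp only [List.append_assoc, List.cons_append, List.nil_append] at h1 h2 h3
  rw [h1, h2, h3]

/-- move a far letter `k` across a word `A` of small letters, with contexts on both sides -/
lemma far_ctx (k : ℕ) (d A c : List ℕ) (hA : ∀ i ∈ A, i + 1 < k) :
    Q (d ++ A ++ k :: c) ↔ Q (d ++ k :: A ++ c) := by
  induction A generalizing d with
  | nil => simp
  | cons a A ih =>
    have ha : a + 1 < k := hA a (by simp)
    have hA' : ∀ i ∈ A, i + 1 < k := fun i hi => hA i (by simp [hi])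
    have h1 := ih (d ++ [a]) hA'
    have h2 := hQ.far_ctx1 a k d (A ++ c) ha
    simp only [List.append_assoc, List.cons_append, List.nil_append] at h1 h2 ⊢
    rw [h1, h2]

lemma sq_ctx (k : ℕ) (d c : List ℕ) (h1 : Q (d ++ k :: c)) (h2 : Q (d ++ c)) :
    Q (d ++ k :: k :: c) := by
  have a1 := hQ.rot d (k :: c) h1
  have a2 := hQ.rot d c h2
  have a3 := hQ.sq k (c ++ d) (by simpa using a1) a2
  have := hQ.rot (k :: k :: c) d (by simpa using a3)
  simpa using this

lemma braid_ctx (i : ℕ) (d c : List ℕ) (h1 : Q (d ++ i :: (i + 1) :: i :: c))
    (h2 : Q (d ++ i :: (i + 1) :: c)) (h3 : Q (d ++ (i + 1) :: i :: c)) (h4 : Q (d ++ c)) :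
    Q (d ++ (i + 1) :: i :: (i + 1) :: c) := by
  have a1 := hQ.rot d _ h1
  have a2 := hQ.rot d _ h2
  have a3 := hQ.rot d _ h3
  have a4 := hQ.rot d _ h4
  have a5 := hQ.braid i (c ++ d) (by simpa using a1) (by simpa using a2) (by simpa using a3) a4
  have := hQ.rot ((i + 1) :: i :: (i + 1) :: c) d (by simpa using a5)
  simpa using this

/-- In any context, a word in letters `< k` can be reduced to words with at most one letter
`k - 1`. -/
lemma red (k : ℕ) : ∀ S c : List ℕ, (∀ i ∈ S, i < k) →
    (∀ S' : List ℕ, (∀ i ∈ S', i < k) → S'.count (k - 1) ≤ 1 → Q (S' ++ c)) → Q (S ++ c) := by
  induction k with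
  | zero =>
    intro S c hS h
    have : S = [] := List.eq_nil_iff_forall_not_mem.mpr (fun a ha => by
      have := hS a ha; omega)
    subst this
    exact h [] (by simp) (by simp)
  | succ k ihk =>
    have key : ∀ n : ℕ, ∀ S c : List ℕ, S.count k = n → (∀ i ∈ S, i < k + 1) →
        (∀ S' : List ℕ, (∀ i ∈ S', i < k + 1) → S'.count k ≤ 1 → Q (S' ++ c)) →
        Q (S ++ c) := by
      intro n
      induction n using Nat.strong_induction_on with
      | _ n ihn =>
        intro S c hn hS h
        by_cases hn1 : n ≤ 1
        · exact h S hS (by omega)
        have hkS : k ∈ S := List.count_pos_iff.mp (by omega)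
        obtain ⟨S1, T, hST, hk1⟩ := List.eq_append_cons_of_mem hkS
        have hc1 : S1.count k = 0 := List.count_eq_zero_of_not_mem hk1
        have hT : T.count k = n - 1 := by
          have : S.count k = S1.count k + (T.count k + 1) := by
            rw [hST]; simp
          omega
        have hkT : k ∈ T := List.count_pos_iff.mp (by omega)
        obtain ⟨w1, S2, hTw, hkw⟩ := List.eq_append_cons_of_mem hkT
        have hcw : w1.count k = 0 := List.count_eq_zero_of_not_mem hkw
        have hS2 : S2.count k = n - 2 := by
          have : T.count k = w1.count k + (S2.count k + 1) := by
            rw [hTw]; simp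
          omega
        subst hTw
        subst hST
        have hl1 : ∀ i ∈ S1, i < k + 1 := fun i hi => hS i (by simp [hi])
        have hl2 : ∀ i ∈ S2, i < k + 1 := fun i hi => hS i (by simp [hi])
        have hlw : ∀ i ∈ w1, i < k := by
          intro i hi
          have h1 := hS i (by simp [hi])
          have h2 : i ≠ k := fun h => hkw (h ▸ hi)
          omega
        -- the general way to use the induction hypothesis
        have use_ih : ∀ B : List ℕ, (∀ i ∈ B, i < k + 1) → B.count k ≤ 1 →
            Q (B ++ (S2 ++ c ++ S1)) := by
          intro B hB hBk
          have := ihn ((S1 ++ B ++ S2).count k) (by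
            simp only [List.count_append]; omega) (S1 ++ B ++ S2) c rfl (by
              intro i hi
              simp only [List.mem_append] at hi
              rcases hi with (hi | hi) | hi
              · exact hl1 i hi
              · exact hB i hi
              · exact hl2 i hi) h
          have h2 := (hQ.rot' S1 B (S2 ++ c)).mp (by simpa using this)
          simpa using h2
        have hgoal : Q (w1 ++ (k :: (S2 ++ c ++ S1) ++ [k])) := by
          apply ihk w1 _ hlw
          intro S' hS' hc'
          -- rotate the last letter to the front
          suffices hs : Q ([] ++ k :: S' ++ k :: (S2 ++ c ++ S1)) by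
            have := hQ.rot [k] (S' ++ k :: (S2 ++ c ++ S1)) (by simpa using hs)
            simpa using this
          by_cases hfar : ∀ i ∈ S', i + 1 < k
          · rw [← hQ.far_ctx k [] S' _ hfar]
            have e1 : Q (S' ++ k :: (S2 ++ c ++ S1)) := by
              have := use_ih (S' ++ [k]) (by
                intro i hi
                simp only [List.mem_append, List.mem_singleton] at hi
                rcases hi with hi | hi
                · have := hfar i hi; omega
                · omega) (by
                  have : S'.count k = 0 := List.count_eq_zero_of_not_mem (fun hmem => by
                    have := hfar k hmem; omega)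
                  simp [this])
              simpa using this
            have e2 : Q (S' ++ (S2 ++ c ++ S1)) := by
              apply use_ih S' (fun i hi => by have := hfar i hi; omega)
              have : S'.count k = 0 := List.count_eq_zero_of_not_mem (fun hmem => by
                    have := hfar k hmem; omega)
              omega
            have := hQ.sq_ctx k S' (S2 ++ c ++ S1) e1 e2
            simpa using this
          · -- `k = k' + 1` and `S'` contains `k'` exactly once
            push Not at hfar
            obtain ⟨i0, hi0, hi0k⟩ := hfar
            have hi0' := hS' i0 hi0
            obtain ⟨k', rfl⟩ : ∃ k', k = k' + 1 := ⟨k - 1, by omega⟩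
            have hi0e : i0 = k' := by omega
            subst hi0e
            obtain ⟨A, B, hAB, hA⟩ := List.eq_append_cons_of_mem hi0
            subst hAB
            have hAc : A.count i0 = 0 := List.count_eq_zero_of_not_mem hA
            have hBc : B.count i0 = 0 := by
              simp only [Nat.add_sub_cancel, List.count_append, List.count_cons_self] at hc'
              omega
            have hB : i0 ∉ B := List.count_eq_zero.mp hBc
            have hA1 : ∀ i ∈ A, i < i0 := by
              intro i hi
              have h1 := hS' i (by simp [hi])
              have h2 : i ≠ i0 := fun h => hA (h ▸ hi)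
              omega
            have hB1 : ∀ i ∈ B, i < i0 := by
              intro i hi
              have h1 := hS' i (by simp [hi])
              have h2 : i ≠ i0 := fun h => hB (h ▸ hi)
              omega
            have hA0 : A.count (i0 + 1) = 0 := List.count_eq_zero_of_not_mem (fun hmem => by
                    have := hA1 _ hmem; omega)
            have hB0 : B.count (i0 + 1) = 0 := List.count_eq_zero_of_not_mem (fun hmem => by
                    have := hB1 _ hmem; omega)
            -- the word is `(i0+1) A i0 B (i0+1) rest`
            set rest := S2 ++ c ++ S1 with hrest
            have st1 : Q (A ++ [i0 + 1, i0] ++ (i0 + 1) :: B ++ rest) →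
                Q ([] ++ (i0 + 1) :: (A ++ i0 :: B) ++ (i0 + 1) :: rest) := by
              intro hq
              have e1 := (hQ.far_ctx (i0 + 1) (A ++ [i0 + 1, i0]) B rest (fun i hi => by
                have := hB1 i hi; omega)).mpr hq
              have e2 := (hQ.far_ctx (i0 + 1) [] A (i0 :: B ++ (i0 + 1) :: rest) (fun i hi => by
                have := hA1 i hi; omega)).mp (by simpa using e1)
              simpa using e2
            apply st1
            have f1 : Q (A ++ i0 :: (i0 + 1) :: i0 :: (B ++ rest)) := by
              have := use_ih (A ++ [i0, i0 + 1, i0] ++ B) (by
                intro i hi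
                simp only [List.mem_append, List.mem_cons, List.not_mem_nil, or_false] at hi
                rcases hi with (hi | hi | hi | hi) | hi
                · have := hA1 i hi; omega
                · omega
                · omega
                · omega
                · have := hB1 i hi; omega) (by
                  simp [hA0, hB0])
              simpa using this
            have f2 : Q (A ++ i0 :: (i0 + 1) :: (B ++ rest)) := by
              have := use_ih (A ++ [i0, i0 + 1] ++ B) (by
                intro i hi
                simp only [List.mem_append, List.mem_cons, List.not_mem_nil, or_false] at hi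
                rcases hi with (hi | hi | hi) | hi
                · have := hA1 i hi; omega
                · omega
                · omega
                · have := hB1 i hi; omega) (by
                  simp [hA0, hB0])
              simpa using this
            have f3 : Q (A ++ (i0 + 1) :: i0 :: (B ++ rest)) := by
              have := use_ih (A ++ [i0 + 1, i0] ++ B) (by
                intro i hi
                simp only [List.mem_append, List.mem_cons, List.not_mem_nil, or_false] at hi
                rcases hi with (hi | hi | hi) | hi
                · have := hA1 i hi; omega
                · omega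
                · omega
                · have := hB1 i hi; omega) (by
                  simp [hA0, hB0])
              simpa using this
            have f4 : Q (A ++ (B ++ rest)) := by
              have := use_ih (A ++ B) (by
                intro i hi
                simp only [List.mem_append] at hi
                rcases hi with hi | hi
                · have := hA1 i hi; omega
                · have := hB1 i hi; omega) (by
                  simp [hA0, hB0])
              simpa using this
            have := hQ.braid_ctx i0 A (B ++ rest) f1 f2 f3 f4
            simpa using this
        -- rotate back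
        have h5 := (hQ.rot' (S1 ++ [k]) w1 (k :: (S2 ++ c))).mpr (by simpa using hgoal)
        simpa using h5
    intro S c hS h
    exact key _ S c rfl hS (by simpa using h)

theorem all (w : List ℕ) : Q w := by
  have main : ∀ k : ℕ, ∀ w : List ℕ, (∀ i ∈ w, i < k) → Q w := by
    intro k
    induction k with
    | zero =>
      intro w hw
      have : w = [] := List.eq_nil_iff_forall_not_mem.mpr (fun a ha => by
        have := hw a ha; omega)
      subst this
      exact hQ.nil
    | succ k ih =>
      intro w hw
      have := hQ.red (k + 1) w [] hw (by
        intro S hS hc
        simp only [Nat.add_sub_cancel] at hc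
        rw [List.append_nil]
        by_cases hk : k ∈ S
        · obtain ⟨A, B, hAB, hA⟩ := List.eq_append_cons_of_mem hk
          subst hAB
          have hAc : A.count k = 0 := List.count_eq_zero_of_not_mem hA
          have hBc : B.count k = 0 := by
            simp only [List.count_append, List.count_cons_self] at hc
            omega
          have hB : k ∉ B := List.count_eq_zero.mp hBc
          have e := hQ.markov k (B ++ A) (by
            intro i hi
            simp only [List.mem_append] at hi
            rcases hi with hi | hi
            · have h1 := hS i (by simp [hi])
              have h2 : i ≠ k := fun h => hB (h ▸ hi)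
              omega
            · have h1 := hS i (by simp [hi])
              have h2 : i ≠ k := fun h => hA (h ▸ hi)
              omega) (ih _ (by
                intro i hi
                simp only [List.mem_append] at hi
                rcases hi with hi | hi
                · have h1 := hS i (by simp [hi])
                  have h2 : i ≠ k := fun h => hB (h ▸ hi)
                  omega
                · have h1 := hS i (by simp [hi])
                  have h2 : i ≠ k := fun h => hA (h ▸ hi)
                  omega))
          have := hQ.rot (k :: B) A (by simpa using e)
          simpa using this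
        · apply ih
          intro i hi
          have h1 := hS i hi
          have h2 : i ≠ k := fun h => hk (h ▸ hi)
          omega)
      simpa using this
  exact main (w.sum + 1) w (fun i hi => Nat.lt_succ_of_le (List.single_le_sum (by simp) i hi))

end WordClosed

end Pool.Agent.SpiralKnots
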